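import Pool.Agent.Lib_helper87.UB.Statement

/-!
# Abelian covers: definitions
-/

set_option autoImplicit false

namespace Pool.Agent.AC

open NumberField Pool.Agent.TT Pool.Agent.TB Pool.Agent.UB

/-- The `p`-adic representation `R` and the `ℓ`-adic representation `ρ` of the absolute Galois group
of `K` are compatible over the field `E`, which is embedded in `ℂ_[p]` by `i` and in the algebraic
closure of `ℚ_[ℓ]` by `i'`: for almost all primes `q`, all prime ideals `𝔓` of the ring of algebraic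
integers above `q` and all elements `σ` of the Galois group that induce `x ↦ x ^ q` modulo `𝔓`,
the characteristic polynomials of `R(σ⁻¹)` and `ρ(σ⁻¹)` are the images of one polynomial over
`E`. -/
def Compatible {K : Type} [Field K] [Algebra K Qbar] {E : Type} [Field E] {p : ℕ} [Fact p.Prime]
    {ℓ : ℕ} [Fact ℓ.Prime] (i : E →+* ℂ_[p]) (i' : E →+* PadicAlgCl ℓ) {y m : ℕ}
    (R : (Qbar ≃ₐ[K] Qbar) →* Matrix (Fin y ⊕ Fin m) (Fin y ⊕ Fin m) ℂ_[p]) {V : Type}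
    [AddCommGroup V] [Module (PadicAlgCl ℓ) V] [Module.Finite (PadicAlgCl ℓ) V]
    (ρ : Representation (PadicAlgCl ℓ) (Qbar ≃ₐ[K] Qbar) V) : Prop :=
  ∃ B : Finset ℕ, ∀ q : ℕ, q.Prime → q ∉ B → ∀ 𝔓 : Ideal (𝓞 Qbar), 𝔓.IsPrime →
    (q : 𝓞 Qbar) ∈ 𝔓 → ∀ σ : Qbar ≃ₐ[K] Qbar,
      (∀ x y : 𝓞 Qbar, (y : Qbar) = σ x → y - x ^ q ∈ 𝔓) →
        ∃ f : Polynomial E, (R σ⁻¹).charpoly = f.map i ∧ (ρ σ⁻¹).charpoly = f.map i'

/-- `x` is a root of unity of degree at most `n` over `E`. -/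
def SmallRoot {E C : Type} [Field E] [Field C] (i : E →+* C) (n : ℕ) (x : C) : Prop :=
  (∃ r : ℕ, 0 < r ∧ x ^ r = 1) ∧ ∃ f : Polynomial E, f ≠ 0 ∧ f.natDegree ≤ n ∧ (f.map i).IsRoot x

/-- There is an element `w` with `X(w) = 1 + nu (α, β; γ, δ)`, where `α` (of size `y × y`), `β`,
`γ`, `δ` are integral, the entries of `γ` are in the maximal ideal, `0 < |nu| < 1` and `|nu|` is
different from `|1 - x|` for all roots of unity `x`, such that the coefficient of `X ^ e` in the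
characteristic polynomial of `α` is a unit. -/
def DeepElement {G : Type} {p : ℕ} [Fact p.Prime] {y m : ℕ}
    (X : G → Matrix (Fin y ⊕ Fin m) (Fin y ⊕ Fin m) ℂ_[p]) (e : ℕ) : Prop :=
  ∃ (w : G) (nu : ℂ_[p]) (N : Matrix (Fin y ⊕ Fin m) (Fin y ⊕ Fin m) ℂ_[p]),
    X w = 1 + nu • N ∧ nu ≠ 0 ∧ ‖nu‖ < 1 ∧
      (∀ (x : ℂ_[p]) (n : ℕ), 0 < n → x ^ n = 1 → ‖nu‖ ≠ ‖1 - x‖) ∧ (∀ i j, ‖N i j‖ ≤ 1) ∧
      (∀ i j, ‖N.toBlocks₂₁ i j‖ < 1) ∧ ‖N.toBlocks₁₁.charpoly.coeff e‖ = 1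

end Pool.Agent.AC
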