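import Pool.Agent.Lib_helper87.UB.Main

/-!
# Auxiliary lemmas
-/

set_option autoImplicit false

namespace Pool.Agent.AC

open Matrix NumberField Topology Polynomial
open Pool.Agent.TT Pool.Agent.TB Pool.Agent.TF Pool.Agent.RF Pool.Agent.TU Pool.Agent.UB

/-- The coefficients of the characteristic polynomial are continuous. -/
theorem coeff_cont {G k n : Type*} [Fintype n] [DecidableEq n] [TopologicalSpace G] [CommRing k]
    [TopologicalSpace k] [IsTopologicalRing k] (r : G → Matrix n n k) (hc : Continuous r)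
    (i : ℕ) : Continuous fun g => (r g).charpoly.coeff i := by
  have h : (fun g => (r g).charpoly.coeff i) = fun g =>
      MvPolynomial.eval (fun x : n × n => r g x.1 x.2)
        ((Matrix.charpoly.univ k n).coeff i) := by
    funext g
    have := Matrix.charpoly.univ_coeff_eval₂Hom n (RingHom.id k)
      (fun x : n × n => r g x.1 x.2) i
    exact this.symm
  rw [h]
  refine (MvPolynomial.continuous_eval _).comp ?_
  refine continuous_pi fun x => ?_
  exact (continuous_apply x.2).comp ((continuous_apply x.1).comp hc)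

/-- The coefficients below the multiplicity of the eigenvalue one. -/
theorem coeff_of_mult {C n : Type*} [Fintype n] [DecidableEq n] [Field C] (M : Matrix n n C)
    (i : ℕ) (hi : i < M.charpoly.rootMultiplicity 1) : (M - 1).charpoly.coeff i = 0 := by
  have h1 := Matrix.charpoly_sub_scalar M (1 : C)
  have h2 : Matrix.scalar n (1 : C) = 1 := map_one _
  rw [h2] at h1
  rw [h1]
  obtain ⟨q, hq⟩ := Polynomial.pow_rootMultiplicity_dvd M.charpoly 1
  rw [hq, Polynomial.mul_comp, Polynomial.pow_comp, Polynomial.sub_comp, Polynomial.X_comp,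
    Polynomial.C_comp, add_sub_cancel_right, Polynomial.coeff_X_pow_mul', if_neg (by omega)]

/-- A uniform exponent. -/
theorem exp_unif {k : Type*} [Field k] {p : ℕ} (f : k[X]) (hf : f ≠ 0)
    (h : ∀ x : k, (∃ N : ℕ, 0 < N ∧ x ^ N = 1) → f.IsRoot x → ∃ b : ℕ, x ^ p ^ b = 1) :
    ∃ b : ℕ, ∀ x : k, (∃ N : ℕ, 0 < N ∧ x ^ N = 1) → f.IsRoot x → x ^ p ^ b = 1 := by
  classical
  have h1 : ∀ x : k, ∃ b : ℕ, (∃ N : ℕ, 0 < N ∧ x ^ N = 1) → f.IsRoot x → x ^ p ^ b = 1 := by
    intro x
    by_cases hx : (∃ N : ℕ, 0 < N ∧ x ^ N = 1) ∧ f.IsRoot x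
    · obtain ⟨b, hb⟩ := h x hx.1 hx.2
      exact ⟨b, fun _ _ => hb⟩
    · exact ⟨0, fun h2 h3 => absurd ⟨h2, h3⟩ hx⟩
  choose b hb using h1
  refine ⟨f.roots.toFinset.sup b, fun x hx hfx => ?_⟩
  have h2 : b x ≤ f.roots.toFinset.sup b := by
    apply Finset.le_sup
    rw [Multiset.mem_toFinset, mem_roots hf]
    exact hfx
  obtain ⟨c, hc⟩ := Nat.exists_eq_add_of_le h2
  rw [hc, pow_add, pow_mul, hb x hx hfx, one_pow]

/-- A root of unity that is residually one has `p`-power order. -/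
theorem root_one {O k : Type*} [CommRing O] [IsDomain O] [Field k] {p : ℕ} [hp : Fact p.Prime]
    [CharP k p] (ρ : O →+* k) (z : O) {M : ℕ} (hM : 0 < M) (hz : z ^ M = 1) (hz1 : ρ z = 1) :
    ∃ b : ℕ, z ^ p ^ b = 1 := by
  obtain ⟨b, n, hn, hMn⟩ := Nat.exists_eq_pow_mul_and_not_dvd hM.ne' p hp.out.ne_one
  refine ⟨b, ?_⟩
  by_contra hne
  have h1 : (z ^ p ^ b) ^ n = 1 := by rw [← pow_mul, ← hMn, hz]
  have h2 : (∑ i ∈ Finset.range n, (z ^ p ^ b) ^ i) * (z ^ p ^ b - 1) = 0 := by
    rw [geom_sum_mul, h1, sub_self]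
  have h3 : ∑ i ∈ Finset.range n, (z ^ p ^ b) ^ i = 0 :=
    (mul_eq_zero.mp h2).resolve_right (sub_ne_zero.mpr hne)
  have h4 := congrArg ρ h3
  rw [map_sum, map_zero] at h4
  have h5 : ∀ i ∈ Finset.range n, ρ ((z ^ p ^ b) ^ i) = 1 := by
    intro i _
    rw [map_pow, map_pow, hz1, one_pow, one_pow]
  rw [Finset.sum_congr rfl h5, Finset.sum_const, Finset.card_range, nsmul_eq_mul, mul_one,
    CharP.cast_eq_zero_iff k p] at h4
  exact hn h4

/-- The eigenvalues of a residually unipotent matrix. -/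
theorem unip_root {C : Type*} [Field C] (O : ValuationSubring C) {k : Type*} [Field k]
    (ρ : O →+* k) {y m : ℕ} (lam : O) (hlam : ρ lam = 0) (A : Matrix (Fin y) (Fin y) O)
    (B : Matrix (Fin y) (Fin m) O) (Cc : Matrix (Fin m) (Fin y) O) (D : Matrix (Fin m) (Fin m) O)
    (hD : D.map ρ = 1) (X : Matrix (Fin y ⊕ Fin m) (Fin y ⊕ Fin m) C)
    (hX : X = (fromBlocks (1 + lam • A) B (lam • Cc) D).map O.subtype) (z : O)
    (hz : X.charpoly.IsRoot (z : C)) : ρ z = 1 := by
  set Z : Matrix (Fin y ⊕ Fin m) (Fin y ⊕ Fin m) O := fromBlocks (1 + lam • A) B (lam • Cc) D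
    with hZ
  have h1 : Z.charpoly.eval z = 0 := by
    rw [hX, Matrix.charpoly_map, IsRoot.def] at hz
    have h2 : (Z.charpoly.map O.subtype).eval (O.subtype z) = 0 := hz
    rw [Polynomial.eval_map_apply] at h2
    exact Subtype.ext h2
  have h2 : (Z.charpoly.map ρ).eval (ρ z) = 0 := by
    rw [Polynomial.eval_map_apply, h1, map_zero]
  have h3 : Z.map ρ = fromBlocks 1 (B.map ρ) 0 1 := by
    rw [hZ, fromBlocks_map, hD]
    congr 1
    · ext i j
      by_cases h : i = j
      · subst h; simp [hlam]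
      · simp [hlam, h]
    · ext i j
      simp [hlam]
  rw [← Matrix.charpoly_map, h3, Matrix.charpoly_fromBlocks_zero₂₁, Matrix.charpoly_one,
    Matrix.charpoly_one, eval_mul, eval_pow, eval_pow, eval_sub, eval_X, eval_one,
    ← pow_add] at h2
  rcases Nat.eq_zero_or_pos (Fintype.card (Fin y) + Fintype.card (Fin m)) with h4 | h4
  · rw [h4, pow_zero] at h2
    exact absurd h2 one_ne_zero
  · exact sub_eq_zero.mp ((pow_eq_zero_iff h4.ne').mp h2)

/-- The factorials are units. -/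
theorem fact_inv (p : ℕ) [hp : Fact p.Prime] : ∃ inv : ℕ → nv ℂ_[p],
    ∀ j, j < p → inv j * (j.factorial : nv ℂ_[p]) = 1 := by
  have hchar : CharP (IsLocalRing.ResidueField (nv ℂ_[p])) p := residue_charP p
  refine ⟨fun j => Ring.inverse (j.factorial : nv ℂ_[p]), fun j hj => ?_⟩
  apply Ring.inverse_mul_cancel
  rw [← IsLocalRing.residue_ne_zero_iff_isUnit, map_natCast, Ne,
    CharP.cast_eq_zero_iff (IsLocalRing.ResidueField (nv ℂ_[p])) p, hp.out.dvd_factorial, not_le]
  exact hj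

theorem nv_charZero (p : ℕ) [Fact p.Prime] : CharZero (nv ℂ_[p]) := by
  constructor
  intro a b hab
  have h1 := congrArg (nv ℂ_[p]).subtype hab
  rw [map_natCast, map_natCast] at h1
  exact_mod_cast h1

end Pool.Agent.AC
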