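import Pool.Agent.Lib_helper88.AC.Van
import Pool.Agent.Lib_helper88.AC.Prep
import Pool.Agent.Lib_helper61.TU.Rank

/-!
# Deep elements: the eigenvalues that are roots of unity
-/

set_option autoImplicit false

namespace Pool.Agent.AC

open Matrix Polynomial Topology
open Pool.Agent.TB Pool.Agent.TU Pool.Agent.RF

section

variable {O k : Type*} [CommRing O] [Field k] (ρ : O →+* k) {y m : ℕ}

/-- Up to a unipotent matrix `Y - 1` is `(nu α, nu β; γ, δ)` with small `γ` and residually invertible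
`δ`; here `T` is the reduction of `α`. -/
def Dp (nu : O) (T : Matrix (Fin y) (Fin y) k) (Y : Matrix (Fin y ⊕ Fin m) (Fin y ⊕ Fin m) O) :
    Prop :=
  ∃ (J : Matrix (Fin y) (Fin m) O) (α : Matrix (Fin y) (Fin y) O) (β : Matrix (Fin y) (Fin m) O)
    (γ : Matrix (Fin m) (Fin y) O) (δ : Matrix (Fin m) (Fin m) O),
    fromBlocks 1 J 0 1 * (Y - 1) = fromBlocks (nu • α) (nu • β) γ δ ∧ α.map ρ = T ∧
      γ.map ρ = 0 ∧ IsUnit (δ.map ρ)

/-- A matrix with a power of order prime to the characteristic that is close to one. -/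
theorem dp_power (hloc : ∀ x : O, ρ x ≠ 0 → IsUnit x) (nu : O)
    (Z : Matrix (Fin y ⊕ Fin m) (Fin y ⊕ Fin m) O) (b : Matrix (Fin y) (Fin m) k)
    (d : Matrix (Fin m) (Fin m) k) (hZ : Z.map ρ = fromBlocks 1 b 0 d) (hd : IsUnit (d - 1))
    (n : ℕ) (hn : (n : k) ≠ 0) (E : Matrix (Fin y ⊕ Fin m) (Fin y ⊕ Fin m) O)
    (hE : E.map ρ = 0) (hp : Z ^ n = 1 + nu • E) : Dp ρ nu 0 Z := by
  classical
  obtain ⟨Z11, Z12, Z21, Z22, rfl⟩ : ∃ Z11 Z12 Z21 Z22, Z = fromBlocks Z11 Z12 Z21 Z22 :=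
    ⟨_, _, _, _, (fromBlocks_toBlocks Z).symm⟩
  rw [fromBlocks_map, fromBlocks_inj] at hZ
  obtain ⟨h11, h12, h21, h22⟩ := hZ
  have hdet : IsUnit (Z22 - 1).det := by
    apply hloc
    have h1 : ρ (Z22 - 1).det = (d - 1).det := by
      rw [RingHom.map_det, RingHom.mapMatrix_apply, Matrix.map_sub _ (map_sub _), map_one_matrix,
        h22]
    rw [h1]
    exact ((Matrix.isUnit_iff_isUnit_det _).mp hd).ne_zero
  set D := Z22 - 1 with hD
  -- the geometric sum
  set U := ∑ i ∈ Finset.range n, (fromBlocks Z11 Z12 Z21 Z22) ^ i with hU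
  have h1 : (fromBlocks Z11 Z12 Z21 Z22 - 1) * U = nu • E := by
    rw [hU, mul_geom_sum, hp, add_sub_cancel_left]
  have hpow : ∀ i : ℕ, ∃ (b' : Matrix (Fin y) (Fin m) k) (d' : Matrix (Fin m) (Fin m) k),
      ((fromBlocks Z11 Z12 Z21 Z22) ^ i).map ρ = fromBlocks 1 b' 0 d' := by
    intro i
    induction i with
    | zero => exact ⟨0, 1, by rw [pow_zero, map_one_matrix, fromBlocks_one]⟩
    | succ i ih =>
      obtain ⟨b', d', hi⟩ := ih
      refine ⟨b + b' * d, d' * d, ?_⟩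
      rw [pow_succ, Matrix.map_mul, hi, fromBlocks_map, h11, h12, h21, h22, fromBlocks_multiply,
        Matrix.one_mul, Matrix.mul_zero, add_zero, Matrix.one_mul, Matrix.zero_mul,
        Matrix.mul_zero, add_zero, Matrix.zero_mul, zero_add]
  have hU11 : U.toBlocks₁₁.map ρ = (n : k) • (1 : Matrix (Fin y) (Fin y) k) := by
    have h2 : U.map ρ = ∑ i ∈ Finset.range n, ((fromBlocks Z11 Z12 Z21 Z22) ^ i).map ρ := by
      rw [hU]
      exact map_sum ρ.mapMatrix _ _
    have h3 : U.toBlocks₁₁.map ρ = (U.map ρ).toBlocks₁₁ := rfl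
    rw [h3, h2]
    have h4 : ∀ s : Finset ℕ, (∑ i ∈ s, ((fromBlocks Z11 Z12 Z21 Z22) ^ i).map ρ).toBlocks₁₁ =
        (s.card : k) • (1 : Matrix (Fin y) (Fin y) k) := by
      intro s
      induction s using Finset.induction_on with
      | empty =>
        rw [Finset.sum_empty, Finset.card_empty, Nat.cast_zero, zero_smul]
        rfl
      | insert a s ha ih =>
        rw [Finset.sum_insert ha, Finset.card_insert_of_notMem ha]
        obtain ⟨b', d', hi⟩ := hpow a
        rw [hi]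
        have h5 : ∀ X : Matrix (Fin y ⊕ Fin m) (Fin y ⊕ Fin m) k,
            (fromBlocks 1 b' 0 d' + X).toBlocks₁₁ = 1 + X.toBlocks₁₁ := by
          intro X
          ext i j
          rfl
        rw [h5, ih, Nat.cast_add, Nat.cast_one, add_smul, one_smul, add_comm]
    rw [h4, Finset.card_range]
  have hUdet : IsUnit U.toBlocks₁₁.det := by
    apply hloc
    rw [RingHom.map_det, RingHom.mapMatrix_apply, hU11, Matrix.det_smul, Matrix.det_one, mul_one]
    exact pow_ne_zero _ hn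
  have hJ : fromBlocks 1 (-(Z12 * D⁻¹)) 0 1 * (fromBlocks Z11 Z12 Z21 Z22 - 1) =
      fromBlocks (Z11 - 1 - Z12 * D⁻¹ * Z21) 0 Z21 D := by
    rw [← fromBlocks_one, sub_eq_add_neg, fromBlocks_neg, fromBlocks_add, fromBlocks_multiply]
    congr 1
    · rw [Matrix.one_mul, neg_zero, add_zero, Matrix.neg_mul]
      abel
    · rw [Matrix.one_mul, neg_zero, add_zero, ← sub_eq_add_neg, ← hD, Matrix.neg_mul,
        Matrix.mul_assoc, Matrix.nonsing_inv_mul _ hdet, Matrix.mul_one]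
      abel
    · rw [Matrix.zero_mul, zero_add, neg_zero, add_zero, Matrix.one_mul]
    · rw [Matrix.zero_mul, zero_add, Matrix.one_mul, ← sub_eq_add_neg]
  set S := Z11 - 1 - Z12 * D⁻¹ * Z21 with hS
  have h2 : S * U.toBlocks₁₁ =
      nu • (fromBlocks 1 (-(Z12 * D⁻¹)) 0 1 * E).toBlocks₁₁ := by
    have h3 : fromBlocks 1 (-(Z12 * D⁻¹)) 0 1 * ((fromBlocks Z11 Z12 Z21 Z22 - 1) * U) =
        fromBlocks 1 (-(Z12 * D⁻¹)) 0 1 * (nu • E) := by rw [h1]
    rw [← Matrix.mul_assoc, hJ, Matrix.mul_smul, ← fromBlocks_toBlocks U,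
      fromBlocks_multiply] at h3
    have h4 := congrArg Matrix.toBlocks₁₁ h3
    rw [toBlocks_fromBlocks₁₁, Matrix.zero_mul, add_zero] at h4
    rw [h4]
    rfl
  have hS2 : S = nu • ((fromBlocks 1 (-(Z12 * D⁻¹)) 0 1 * E).toBlocks₁₁ * U.toBlocks₁₁⁻¹) := by
    rw [← Matrix.smul_mul, ← h2, Matrix.mul_assoc, Matrix.mul_nonsing_inv _ hUdet, Matrix.mul_one]
  refine ⟨-(Z12 * D⁻¹), (fromBlocks 1 (-(Z12 * D⁻¹)) 0 1 * E).toBlocks₁₁ * U.toBlocks₁₁⁻¹, 0,
    Z21, D, ?_, ?_, h21, ?_⟩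
  · rw [hJ, ← hS2, smul_zero]
  · have h3 : (fromBlocks 1 (-(Z12 * D⁻¹)) 0 1 * E).toBlocks₁₁.map ρ = 0 := by
      have h4 : (fromBlocks 1 (-(Z12 * D⁻¹)) 0 1 * E).toBlocks₁₁.map ρ =
        ((fromBlocks 1 (-(Z12 * D⁻¹)) 0 1 * E).map ρ).toBlocks₁₁ := rfl
      rw [h4, Matrix.map_mul, hE, Matrix.mul_zero]
      rfl
    rw [Matrix.map_mul, h3, Matrix.zero_mul]
  · have h3 : D.map ρ = d - 1 := by
      rw [hD, Matrix.map_sub _ (map_sub _), map_one_matrix, h22]
    rw [h3]
    exact hd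

/-- The product with a deep element. -/
theorem dp_mul (nu : O) (hnu : ρ nu = 0) (Z : Matrix (Fin y ⊕ Fin m) (Fin y ⊕ Fin m) O)
    (hZ : Dp ρ nu 0 Z) (b : Matrix (Fin y) (Fin m) k) (d : Matrix (Fin m) (Fin m) k)
    (hZr : Z.map ρ = fromBlocks 1 b 0 d) (N : Matrix (Fin y ⊕ Fin m) (Fin y ⊕ Fin m) O)
    (T : Matrix (Fin y) (Fin y) k) (hT : N.toBlocks₁₁.map ρ = T)
    (hN : N.toBlocks₂₁.map ρ = 0) : Dp ρ nu T (Z * (1 + nu • N)) := by
  obtain ⟨J, α, β, γ, δ, h1, h2, h3, h4⟩ := hZ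
  set Q := fromBlocks 1 J 0 1 * Z * N with hQ
  have hQr : Q.map ρ = fromBlocks T ((Q.map ρ).toBlocks₁₂) 0 ((Q.map ρ).toBlocks₂₂) := by
    have h5 : N.map ρ = fromBlocks T (N.toBlocks₁₂.map ρ) 0 (N.toBlocks₂₂.map ρ) := by
      conv_lhs => rw [← fromBlocks_toBlocks N]
      rw [fromBlocks_map, hT, hN]
    conv_lhs => rw [← fromBlocks_toBlocks (Q.map ρ)]
    rw [fromBlocks_inj]
    refine ⟨?_, rfl, ?_, rfl⟩
    · rw [hQ, Matrix.map_mul, Matrix.map_mul, hZr, h5, fromBlocks_map, map_one_matrix,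
        map_one_matrix, Matrix.map_zero _ (map_zero _), fromBlocks_multiply, fromBlocks_multiply,
        toBlocks_fromBlocks₁₁, Matrix.mul_zero, add_zero, Matrix.mul_zero, add_zero,
        Matrix.one_mul, Matrix.one_mul]
    · rw [hQ, Matrix.map_mul, Matrix.map_mul, hZr, h5, fromBlocks_map, map_one_matrix,
        map_one_matrix, Matrix.map_zero _ (map_zero _), fromBlocks_multiply, fromBlocks_multiply,
        toBlocks_fromBlocks₂₁, Matrix.mul_zero, add_zero, Matrix.mul_zero, add_zero,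
        Matrix.zero_mul, Matrix.zero_mul]
  have h5 : fromBlocks 1 J 0 1 * (Z * (1 + nu • N) - 1) =
      fromBlocks (nu • α) (nu • β) γ δ + nu • Q := by
    rw [← h1, hQ, Matrix.mul_assoc, ← Matrix.mul_smul, ← Matrix.mul_smul, ← Matrix.mul_add]
    congr 1
    rw [Matrix.mul_add, Matrix.mul_one]
    abel
  refine ⟨J, α + Q.toBlocks₁₁, β + Q.toBlocks₁₂, γ + nu • Q.toBlocks₂₁, δ + nu • Q.toBlocks₂₂,
    ?_, ?_, ?_, ?_⟩
  · rw [h5]
    conv_lhs => rw [← fromBlocks_toBlocks Q]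
    rw [fromBlocks_smul, fromBlocks_add, smul_add, smul_add]
  · have h6 : Q.toBlocks₁₁.map ρ = T := by
      have h7 : Q.toBlocks₁₁.map ρ = (Q.map ρ).toBlocks₁₁ := rfl
      rw [h7, hQr, toBlocks_fromBlocks₁₁]
    rw [map_add_matrix, h2, h6, zero_add]
  · rw [map_add_matrix, h3, map_smul_matrix, hnu, zero_smul, add_zero]
  · rw [map_add_matrix, map_smul_matrix, hnu, zero_smul, add_zero]
    exact h4

/-- A small perturbation. -/
theorem dp_near (nu : O) (hnu : ρ nu = 0) (T : Matrix (Fin y) (Fin y) k)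
    (Z : Matrix (Fin y ⊕ Fin m) (Fin y ⊕ Fin m) O)
    (hZ : Dp ρ nu T Z) (E : Matrix (Fin y ⊕ Fin m) (Fin y ⊕ Fin m) O) (hE : E.map ρ = 0) :
    Dp ρ nu T (Z + nu • E) := by
  obtain ⟨J, α, β, γ, δ, h1, h2, h3, h4⟩ := hZ
  set Q := fromBlocks 1 J 0 1 * E with hQ
  have hQr : Q.map ρ = 0 := by
    rw [hQ, Matrix.map_mul, hE, Matrix.mul_zero]
  have h5 : fromBlocks 1 J 0 1 * (Z + nu • E - 1) =
      fromBlocks (nu • α) (nu • β) γ δ + nu • Q := by
    rw [← h1, hQ, ← Matrix.mul_smul, ← Matrix.mul_add]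
    congr 1
    abel
  refine ⟨J, α + Q.toBlocks₁₁, β + Q.toBlocks₁₂, γ + nu • Q.toBlocks₂₁, δ + nu • Q.toBlocks₂₂,
    ?_, ?_, ?_, ?_⟩
  · rw [h5]
    conv_lhs => rw [← fromBlocks_toBlocks Q]
    rw [fromBlocks_smul, fromBlocks_add, smul_add, smul_add]
  · have h6 : Q.toBlocks₁₁.map ρ = 0 := by
      have h7 : Q.toBlocks₁₁.map ρ = (Q.map ρ).toBlocks₁₁ := rfl
      rw [h7, hQr]
      rfl
    rw [map_add_matrix, h2, h6, add_zero]
  · rw [map_add_matrix, h3, map_smul_matrix, hnu, zero_smul, add_zero]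
  · rw [map_add_matrix, map_smul_matrix, hnu, zero_smul, add_zero]
    exact h4

end

section

variable {p : ℕ} [Fact p.Prime] {y m : ℕ}

/-- The roots of the characteristic polynomial of a power. -/
theorem roots_pow {n : Type} [Fintype n] [DecidableEq n] {C : Type} [Field C] [CharZero C]
    [IsAlgClosed C] (A : Matrix n n C) (M : ℕ) :
    (A ^ M).charpoly.roots = A.charpoly.roots.map (fun x => x ^ M) := by
  have e := Fintype.equivFin n
  have h1 := tv_pow (Matrix.reindexAlgEquiv C C e A) M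
  rw [← map_pow, Matrix.coe_reindexAlgEquiv, Matrix.charpoly_reindex,
    Matrix.charpoly_reindex] at h1
  exact h1

/-- The determinant of `x - (Y - 1)` for `x = c z`. -/
theorem dp_det {R : Type*} [CommRing R] (J : Matrix (Fin y) (Fin m) R)
    (α : Matrix (Fin y) (Fin y) R) (β : Matrix (Fin y) (Fin m) R) (γ : Matrix (Fin m) (Fin y) R)
    (δ : Matrix (Fin m) (Fin m) R) (c z : R) (W : Matrix (Fin y ⊕ Fin m) (Fin y ⊕ Fin m) R)
    (h : fromBlocks 1 J 0 1 * W = fromBlocks (c • α) (c • β) γ δ) :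
    (Matrix.scalar (Fin y ⊕ Fin m) (c * z) - W).det = c ^ y *
      (fromBlocks (Matrix.scalar (Fin y) z - α) (z • J - β) (-γ)
        (Matrix.scalar (Fin m) (c * z) - δ)).det := by
  have h1 : (fromBlocks (1 : Matrix (Fin y) (Fin y) R) J 0 1).det = 1 := by
    rw [det_fromBlocks_zero₂₁, det_one, det_one, mul_one]
  have h2 : fromBlocks 1 J 0 1 * (Matrix.scalar (Fin y ⊕ Fin m) (c * z) - W) =
      fromBlocks (Matrix.scalar (Fin y) c) 0 0 1 *
        fromBlocks (Matrix.scalar (Fin y) z - α) (z • J - β) (-γ)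
        (Matrix.scalar (Fin m) (c * z) - δ) := by
    have h3 : Matrix.scalar (Fin y ⊕ Fin m) (c * z) = fromBlocks (Matrix.scalar (Fin y) (c * z)) 0 0
        (Matrix.scalar (Fin m) (c * z)) := by
      ext i j
      rcases i with i | i <;> rcases j with j | j <;> simp [Matrix.diagonal_apply]
    have h4 : ∀ (r : R) (Y : Matrix (Fin y) (Fin m) R), Y * Matrix.scalar (Fin m) r = r • Y := by
      intro r Y
      ext i j
      simp [Matrix.scalar_apply, mul_comm]
    have h5 : ∀ {l : ℕ} (r : R) (Y : Matrix (Fin y) (Fin l) R),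
        Matrix.scalar (Fin y) r * Y = r • Y := by
      intro l r Y
      ext i j
      simp [Matrix.scalar_apply]
    rw [Matrix.mul_sub, h, h3, fromBlocks_multiply, fromBlocks_multiply, sub_eq_add_neg,
      fromBlocks_neg, fromBlocks_add]
    simp only [Matrix.one_mul, Matrix.mul_zero, Matrix.zero_mul, add_zero, zero_add, h4, h5]
    congr 1
    · rw [smul_sub, ← sub_eq_add_neg]
      congr 1
      ext i j
      simp [Matrix.diagonal_apply]
    · rw [smul_sub, smul_smul, sub_eq_add_neg]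
    · rw [sub_eq_add_neg]
  have h3 := congrArg Matrix.det h2
  rw [det_mul, det_mul, h1, one_mul, det_fromBlocks_zero₁₂, det_one, mul_one] at h3
  rw [h3]
  simp

/-- The reduction of the determinant. -/
theorem dp_red {k : Type*} [Field k] (J : Matrix (Fin y) (Fin m) (nv ℂ_[p]))
    (ρ : nv ℂ_[p] →+* k) (nu : nv ℂ_[p]) (hnu : ρ nu = 0)
    (α : Matrix (Fin y) (Fin y) (nv ℂ_[p])) (β : Matrix (Fin y) (Fin m) (nv ℂ_[p]))
    (γ : Matrix (Fin m) (Fin y) (nv ℂ_[p])) (δ : Matrix (Fin m) (Fin m) (nv ℂ_[p]))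
    (hγ : γ.map ρ = 0) :
    ((fromBlocks (Matrix.scalar (Fin y) (X : (nv ℂ_[p])[X]) - α.map C)
        ((X : (nv ℂ_[p])[X]) • J.map C - β.map C) (-(γ.map C))
        (Matrix.scalar (Fin m) (C nu * (X : (nv ℂ_[p])[X])) - δ.map C)).det).map ρ =
      (α.map ρ).charpoly * C (-(δ.map ρ)).det := by
  have h1 : ∀ f : (nv ℂ_[p])[X], f.map ρ = mapRingHom ρ f := fun f => rfl
  rw [h1, RingHom.map_det, RingHom.mapMatrix_apply, fromBlocks_map]
  have h2 : (-(γ.map (C : nv ℂ_[p] →+* (nv ℂ_[p])[X]))).map (mapRingHom ρ) = 0 := by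
    ext i j : 1
    have h3 := congrFun (congrFun hγ i) j
    rw [Matrix.map_apply, Matrix.zero_apply] at h3
    rw [Matrix.map_apply, Matrix.neg_apply, Matrix.map_apply, map_neg, coe_mapRingHom, map_C, h3,
      C_0, neg_zero, Matrix.zero_apply]
  rw [h2, det_fromBlocks_zero₂₁]
  congr 1
  · have h3 : (Matrix.scalar (Fin y) (X : (nv ℂ_[p])[X]) - α.map C).map (mapRingHom ρ) =
        charmatrix (α.map ρ) := by
      ext i j : 1
      by_cases h : i = j
      · subst h
        simp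
      · simp [h]
    rw [h3]
    rfl
  · have h3 : (Matrix.scalar (Fin m) (C nu * (X : (nv ℂ_[p])[X])) - δ.map C).map (mapRingHom ρ) =
        (-(δ.map ρ)).map C := by
      ext i j : 1
      by_cases h : i = j
      · subst h
        simp [hnu]
      · simp [h]
    rw [h3]
    exact (RingHom.map_det (C : k →+* k[X]) _).symm

/-- The number of the eigenvalues that are `n`-th roots of unity. -/
theorem dp_count (nu : nv ℂ_[p]) (hnu0 : nu ≠ 0) (hnu1 : ‖(nu : ℂ_[p])‖ < 1)
    (hnu : ∀ (x : ℂ_[p]) (n : ℕ), 0 < n → x ^ n = 1 → ‖(nu : ℂ_[p])‖ ≠ ‖1 - x‖)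
    (T : Matrix (Fin y) (Fin y) (IsLocalRing.ResidueField (nv ℂ_[p])))
    (Y : Matrix (Fin y ⊕ Fin m) (Fin y ⊕ Fin m) (nv ℂ_[p])) 
    (hY : Dp (IsLocalRing.residue (nv ℂ_[p])) nu T Y) (e : ℕ)
    (he : T.charpoly.coeff e ≠ 0) (n : ℕ) (hn : 0 < n)
    (hW : ∀ ω : nv ℂ_[p], ω ^ n = 1 → (Y.map (nv ℂ_[p]).subtype).charpoly.IsRoot (ω : ℂ_[p]) →
      IsLocalRing.residue (nv ℂ_[p]) ω = 1) :
    ((Y.map (nv ℂ_[p]).subtype) ^ n).charpoly.rootMultiplicity 1 ≤ e := by
  classical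
  obtain ⟨J, α, β, γ, δ, h1, h2, h3, h4⟩ := hY
  have hnuc : (nu : ℂ_[p]) ≠ 0 := fun h => hnu0 (Subtype.ext h)
  have hnun : 0 < ‖(nu : ℂ_[p])‖ := norm_pos_iff.mpr hnuc
  have hnur : IsLocalRing.residue (nv ℂ_[p]) nu = 0 := residue_zero _ hnu1
  have hδdet : (-(δ.map (IsLocalRing.residue (nv ℂ_[p])))).det ≠ 0 := by
    rw [Matrix.det_neg]
    exact mul_ne_zero (pow_ne_zero _ (neg_ne_zero.mpr one_ne_zero))
      ((Matrix.isUnit_iff_isUnit_det _).mp h4).ne_zero
  set F := (Y.map (nv ℂ_[p]).subtype).charpoly with hF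
  have hF0 : F ≠ 0 := (Matrix.charpoly_monic _).ne_zero
  obtain ⟨d', x, hx⟩ := np_family F.roots
  have hroot : ∀ i, F.IsRoot (x i) := by
    intro i
    rw [← Polynomial.mem_roots hF0, ← hx]
    exact Multiset.mem_map.mpr ⟨i, Finset.mem_univ i, rfl⟩
  -- the roots of unity are close to one
  have hz : ∀ i, x i ^ n = 1 →
      ∃ z : nv ℂ_[p], IsLocalRing.residue (nv ℂ_[p]) z = 0 ∧ x i = 1 + nu * z := by
    intro i hi
    have h5 : ‖x i‖ ≤ 1 := by
      by_contra hgt
      rw [not_le] at hgt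
      have h3 := one_lt_pow₀ hgt hn.ne'
      rw [← norm_pow, hi, norm_one] at h3
      exact lt_irrefl _ h3
    let ω : nv ℂ_[p] := ⟨x i, h5⟩
    have h6 : IsLocalRing.residue (nv ℂ_[p]) ω = 1 := hW ω (Subtype.ext hi) (hroot i)
    set κ : nv ℂ_[p] := ω - 1 with hκ
    have hκr : IsLocalRing.residue (nv ℂ_[p]) κ = 0 := by rw [hκ, map_sub, h6, map_one, sub_self]
    have hκx : (κ : ℂ_[p]) = x i - 1 := rfl
    rcases lt_trichotomy ‖(κ : ℂ_[p])‖ ‖(nu : ℂ_[p])‖ with h7 | h7 | h7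
    · have h8 : ‖(κ : ℂ_[p]) / (nu : ℂ_[p])‖ < 1 := by
        rw [norm_div, div_lt_one hnun]
        exact h7
      refine ⟨⟨(κ : ℂ_[p]) / (nu : ℂ_[p]), h8.le⟩, residue_zero _ h8, ?_⟩
      show x i = 1 + (nu : ℂ_[p]) * ((κ : ℂ_[p]) / (nu : ℂ_[p]))
      rw [mul_div_cancel₀ _ hnuc, hκx]
      ring
    · exfalso
      apply hnu (x i) n hn hi
      rw [← h7, hκx, norm_sub_rev]
    · exfalso
      have hκ0 : (κ : ℂ_[p]) ≠ 0 := by
        intro h0
        rw [h0, norm_zero] at h7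
        exact absurd h7 (not_lt.mpr (norm_nonneg _))
      have h8 : ‖(nu : ℂ_[p]) / (κ : ℂ_[p])‖ < 1 := by
        rw [norm_div, div_lt_one (norm_pos_iff.mpr hκ0)]
        exact h7
      let τ : nv ℂ_[p] := ⟨(nu : ℂ_[p]) / (κ : ℂ_[p]), h8.le⟩
      have hτr : IsLocalRing.residue (nv ℂ_[p]) τ = 0 := residue_zero _ h8
      have hτ : κ * τ = nu := Subtype.ext (mul_div_cancel₀ _ hκ0)
      have h9 := dp_det J (τ • α) (τ • β) γ δ κ 1 (Y - 1) (by
        rw [h1, smul_smul, smul_smul, hτ])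
      rw [mul_one] at h9
      have h10 : (Matrix.scalar (Fin y ⊕ Fin m) κ - (Y - 1)).det = 0 := by
        have h11 : (Y.charpoly.map (nv ℂ_[p]).subtype).eval ((nv ℂ_[p]).subtype ω) = 0 := by
          have h12 := hroot i
          rw [hF, Matrix.charpoly_map] at h12
          exact h12
        rw [Polynomial.eval_map_apply] at h11
        have h13 : Y.charpoly.eval ω = 0 := Subtype.ext h11
        rw [Matrix.eval_charpoly] at h13
        rw [← h13]
        congr 1
        rw [hκ, map_sub, map_one]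
        abel
      rw [h10] at h9
      have h11 : (fromBlocks (Matrix.scalar (Fin y) 1 - τ • α) ((1 : nv ℂ_[p]) • J - τ • β) (-γ)
          (Matrix.scalar (Fin m) κ - δ)).det ≠ 0 := by
        intro h0
        have h12 := congrArg (IsLocalRing.residue (nv ℂ_[p])) h0
        rw [RingHom.map_det, RingHom.mapMatrix_apply, fromBlocks_map, map_zero] at h12
        have h13 : (-γ).map (IsLocalRing.residue (nv ℂ_[p])) = 0 := by
          rw [Matrix.map_neg _ (map_neg _), h3, neg_zero]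
        have h14 : (Matrix.scalar (Fin y) 1 - τ • α).map (IsLocalRing.residue (nv ℂ_[p])) = 1 := by
          rw [map_one, Matrix.map_sub _ (map_sub _), map_one_matrix, map_smul_matrix, hτr,
            zero_smul, sub_zero]
        have h15 : (Matrix.scalar (Fin m) κ - δ).map (IsLocalRing.residue (nv ℂ_[p])) =
            -(δ.map (IsLocalRing.residue (nv ℂ_[p]))) := by
          ext i j
          rw [Matrix.map_apply, Matrix.sub_apply, map_sub, Matrix.neg_apply, Matrix.map_apply,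
            Matrix.scalar_apply, Matrix.diagonal_apply]
          split_ifs
          · rw [hκr, zero_sub]
          · rw [map_zero, zero_sub]
        rw [h13, h14, h15, det_fromBlocks_zero₂₁, det_one, one_mul] at h12
        exact hδdet h12
      have h12 : κ ≠ 0 := fun h0 => hκ0 (congrArg Subtype.val h0)
      exact mul_ne_zero (pow_ne_zero y h12) h11 h9.symm
  -- the polynomial
  set Q : (nv ℂ_[p])[X] := (fromBlocks (Matrix.scalar (Fin y) (X : (nv ℂ_[p])[X]) - α.map C)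
        ((X : (nv ℂ_[p])[X]) • J.map C - β.map C) (-(γ.map C))
        (Matrix.scalar (Fin m) (C nu * (X : (nv ℂ_[p])[X])) - δ.map C)).det with hQ
  have hQ1 : Y.charpoly.comp (1 + C nu * X) = C nu ^ y * Q := by
    have h5 := dp_det (J.map C) (α.map C) (β.map C) (γ.map C) (δ.map C) (C nu)
      (X : (nv ℂ_[p])[X]) ((Y - 1).map C) (by
        have h6 := congrArg (fun M => M.map (C : nv ℂ_[p] →+* (nv ℂ_[p])[X])) h1
        simp only [Matrix.map_mul, fromBlocks_map, map_smul_matrix, map_one_matrix,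
          Matrix.map_zero _ (map_zero _)] at h6
        exact h6)
    rw [hQ, ← h5]
    have h7 : Y.charpoly.comp (1 + C nu * X) =
        ((Polynomial.compRingHom (1 + C nu * X)).mapMatrix (charmatrix Y)).det := by
      rw [← RingHom.map_det]
      rfl
    rw [h7]
    congr 1
    ext i j : 1
    rw [RingHom.mapMatrix_apply, Matrix.map_apply, charmatrix_apply, Matrix.sub_apply,
      Matrix.map_apply, Matrix.sub_apply, Matrix.scalar_apply, coe_compRingHom_apply, sub_comp,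
      C_comp, C_sub]
    by_cases h : i = j
    · subst h
      rw [Matrix.diagonal_apply_eq, Matrix.diagonal_apply_eq, Matrix.one_apply_eq, X_comp, C_1]
      ring
    · rw [Matrix.diagonal_apply_ne _ h, Matrix.diagonal_apply_ne _ h, Matrix.one_apply_ne h,
        zero_comp, C_0]
      ring
  have hFx : F = ∏ i, (X - C (x i)) := by
    rw [(IsAlgClosed.splits F).eq_prod_roots_of_monic (Matrix.charpoly_monic _), ← hx,
      Multiset.map_map, Finset.prod_eq_multiset_prod]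
    rfl
  have hQ2 : C (nu : ℂ_[p]) ^ y * Q.map (nv ℂ_[p]).subtype =
      ∏ i, (1 + C (nu : ℂ_[p]) * X - C (x i)) := by
    have h5 := congrArg (fun f => Polynomial.map (nv ℂ_[p]).subtype f) hQ1
    simp only [Polynomial.map_comp, Polynomial.map_mul, Polynomial.map_pow, Polynomial.map_add,
      Polynomial.map_C, Polynomial.map_X, Polynomial.map_one] at h5
    rw [← Matrix.charpoly_map, ← hF, hFx, Polynomial.prod_comp] at h5
    have h6 : (nv ℂ_[p]).subtype nu = (nu : ℂ_[p]) := rfl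
    rw [h6] at h5
    rw [← h5]
    apply Finset.prod_congr rfl
    intro i _
    rw [sub_comp, X_comp, C_comp]
  choose z hz1 hz2 using hz
  let z' : Fin d' → nv ℂ_[p] := fun i => if h : x i ^ n = 1 then z i h else 0
  have hz'1 : ∀ i, IsLocalRing.residue (nv ℂ_[p]) (z' i) = 0 := by
    intro i
    by_cases h : x i ^ n = 1
    · have h5 : z' i = z i h := dif_pos h
      rw [h5]
      exact hz1 i h
    · have h5 : z' i = 0 := dif_neg h
      rw [h5, map_zero]
  have hz'2 : ∀ i, x i ^ n = 1 → x i = 1 + nu * z' i := by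
    intro i h
    have h5 : z' i = z i h := dif_pos h
    rw [h5]
    exact hz2 i h
  set S := Finset.univ.filter fun i => x i ^ n = 1 with hS
  have hdvd : (∏ i ∈ S, (X - C (z' i) : (nv ℂ_[p])[X])) ∣ Q := by
    rw [← Polynomial.map_dvd_map (nv ℂ_[p]).subtype Subtype.val_injective
      (monic_prod_of_monic _ _ fun i _ => monic_X_sub_C _)]
    have h5 : (∏ i ∈ S, (X - C (z' i) : (nv ℂ_[p])[X])).map (nv ℂ_[p]).subtype ∣
        C (nu : ℂ_[p]) ^ y * Q.map (nv ℂ_[p]).subtype := by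
      rw [hQ2, Polynomial.map_prod]
      refine dvd_trans ?_ (Finset.prod_dvd_prod_of_subset _ _ _ (Finset.subset_univ S))
      apply Finset.prod_dvd_prod_of_dvd
      intro i hi
      rw [hS, Finset.mem_filter] at hi
      refine ⟨C (nu : ℂ_[p]), ?_⟩
      rw [Polynomial.map_sub, Polynomial.map_X, Polynomial.map_C, hz'2 i hi.2]
      have h6 : (nv ℂ_[p]).subtype (z' i) = (z' i : ℂ_[p]) := rfl
      rw [h6, C_add, C_mul, C_1]
      ring
    have h6 : IsUnit (C (nu : ℂ_[p]) ^ y) := (Polynomial.isUnit_C.mpr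
      (isUnit_iff_ne_zero.mpr hnuc)).pow y
    exact (h6.dvd_mul_left).mp h5
  have hdvd2 : (X : (IsLocalRing.ResidueField (nv ℂ_[p]))[X]) ^ S.card ∣
      Q.map (IsLocalRing.residue (nv ℂ_[p])) := by
    obtain ⟨q, hq⟩ := hdvd
    rw [hq, Polynomial.map_mul, Polynomial.map_prod]
    refine dvd_mul_of_dvd_left (dvd_of_eq ?_) _
    rw [← Finset.prod_const]
    apply Finset.prod_congr rfl
    intro i _
    rw [Polynomial.map_sub, Polynomial.map_X, Polynomial.map_C, hz'1, C_0, sub_zero]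
  have hcard : S.card ≤ e := by
    by_contra hlt
    rw [not_le] at hlt
    have h5 := Polynomial.X_pow_dvd_iff.mp hdvd2 e hlt
    rw [hQ, dp_red J (IsLocalRing.residue (nv ℂ_[p])) nu hnur α β γ δ h3, h2, Polynomial.coeff_mul_C] at h5
    exact mul_ne_zero he hδdet h5
  rw [← Polynomial.count_roots, roots_pow, ← hF, ← hx, Multiset.map_map, Multiset.count_map,
    ← Finset.filter_val, ← Finset.card_def]
  refine le_trans (Finset.card_le_card ?_) hcard
  intro i hi
  rw [Finset.mem_filter] at hi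
  rw [hS, Finset.mem_filter]
  exact ⟨Finset.mem_univ i, hi.2.symm⟩

end

end Pool.Agent.AC
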