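import Pool.Agent.Lib_helper88.AC.Frob
import Pool.Agent.Lib_helper88.AC.Depth
import Pool.Agent.Lib_helper88.AC.Defs

/-!
# Compatible representations: Frobenius elements
-/

set_option autoImplicit false

namespace Pool.Agent.AC

open Matrix NumberField Topology Polynomial
open Pool.Agent.TT Pool.Agent.TB Pool.Agent.TF Pool.Agent.RF Pool.Agent.TU Pool.Agent.UB

/-- Inverse Frobenius elements. -/
structure Fr {K : Type} [Field K] [Algebra K Qbar] {E : Type} [Field E] {p ℓ : ℕ}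
    [Fact p.Prime] [Fact ℓ.Prime] (ip : E →+* ℂ_[p]) (il : E →+* PadicAlgCl ℓ) {y m : ℕ}
    (R : (Qbar ≃ₐ[K] Qbar) →* Matrix (Fin y ⊕ Fin m) (Fin y ⊕ Fin m) ℂ_[p])
    {V : Type} [AddCommGroup V] [Module (PadicAlgCl ℓ) V] [Module.Finite (PadicAlgCl ℓ) V]
    (π : Representation (PadicAlgCl ℓ) (Qbar ≃ₐ[K] Qbar) V) (t : Qbar ≃ₐ[K] Qbar) (q : ℕ) :
    Prop where
  pos : 0 < q
  cyc : cyc ℓ t * (q : PadicAlgCl ℓ) = 1
  cycp : cycC p t * (q : ℂ_[p]) = 1
  poly : ∃ f : E[X], (R t).charpoly = f.map ip ∧ (π t).charpoly = f.map il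

open Classical in
/-- The roots of a polynomial in two algebraically closed fields. -/
theorem fr_count {E k : Type} [Field E] [Field k] [IsAlgClosed k] (i : E →+* k) (f : E[X])
    (n c : ℕ) : ((f.map i).roots.map (fun x => x ^ n)).count (c : k) =
      ((f.map (algebraMap E (AlgebraicClosure E))).roots.map (fun x => x ^ n)).count
        (c : AlgebraicClosure E) := by
  classical
  let _ : Algebra E k := i.toAlgebra
  let j : AlgebraicClosure E →ₐ[E] k := IsAlgClosed.lift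
  have h1 : i = (j : AlgebraicClosure E →+* k).comp (algebraMap E (AlgebraicClosure E)) := by
    ext x
    exact (j.commutes x).symm
  have h2 : (f.map i).roots =
      (f.map (algebraMap E (AlgebraicClosure E))).roots.map (j : AlgebraicClosure E →+* k) := by
    rw [h1, ← Polynomial.map_map]
    exact (IsAlgClosed.splits _).roots_map _
  rw [h2, Multiset.map_map]
  have h3 : (fun x : k => x ^ n) ∘ (j : AlgebraicClosure E →+* k) =
      (j : AlgebraicClosure E →+* k) ∘ (fun x => x ^ n) := by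
    funext x
    simp only [Function.comp_apply, map_pow]
  rw [h3, ← Multiset.map_map]
  have h4 : (c : k) = (j : AlgebraicClosure E →+* k) (c : AlgebraicClosure E) := by
    rw [map_natCast]
  rw [h4]
  exact Multiset.count_map_eq_count' _ _ (j : AlgebraicClosure E →+* k).injective _

/-- The eigenvalues of the powers of two endomorphisms with the same characteristic polynomial. -/
theorem fr_pow {E C k n : Type} [Fintype n] [DecidableEq n] [Field E] [Field C] [CharZero C]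
    [IsAlgClosed C] [Field k] [CharZero k] [IsAlgClosed k] (i : E →+* C) (i' : E →+* k)
    (A : Matrix n n C) {V : Type} [AddCommGroup V] [Module k V] [Module.Finite k V]
    (T : Module.End k V) (f : E[X]) (h1 : A.charpoly = f.map i) (h2 : T.charpoly = f.map i')
    (r c : ℕ) :
    (T ^ r).charpoly.rootMultiplicity (c : k) = (A ^ r).charpoly.rootMultiplicity (c : C) := by
  classical
  let b := Module.finBasis k V
  have h3 : (LinearMap.toMatrix b b T).charpoly = f.map i' := by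
    rw [← h2]
    exact LinearMap.charpoly_toMatrix T b
  have h4 : (LinearMap.toMatrix b b T ^ r).charpoly = (T ^ r).charpoly := by
    rw [← LinearMap.charpoly_toMatrix (T ^ r) b, LinearMap.toMatrix_pow]
  rw [← h4, ← Polynomial.count_roots, ← Polynomial.count_roots, roots_pow, roots_pow, h1, h3,
    fr_count i, fr_count i']

/-- The inverse Frobenius elements are dense. -/
theorem fr_dense {K : Type} [Field K] [NumberField K] [Algebra K Qbar] {E : Type} [Field E]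
    {p : ℕ} [Fact p.Prime] (ip : E →+* ℂ_[p]) {y m : ℕ}
    (R : (Qbar ≃ₐ[K] Qbar) →* Matrix (Fin y ⊕ Fin m) (Fin y ⊕ Fin m) ℂ_[p])
    {ℓ : ℕ} [Fact ℓ.Prime] (il : E →+* PadicAlgCl ℓ)
    {V : Type} [AddCommGroup V] [Module (PadicAlgCl ℓ) V] [Module.Finite (PadicAlgCl ℓ) V]
    (π : Representation (PadicAlgCl ℓ) (Qbar ≃ₐ[K] Qbar) V) (hπ : Compatible ip il R π)
    (g : Qbar ≃ₐ[K] Qbar) (U : Set (Qbar ≃ₐ[K] Qbar)) (hU : U ∈ 𝓝 g) :
    ∃ t ∈ U, ∃ q : ℕ, Fr ip il R π t q := by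
  classical
  obtain ⟨B, hB⟩ := hπ
  have hU1 : (fun σ : Qbar ≃ₐ[K] Qbar => σ⁻¹) ⁻¹' U ∈ 𝓝 g⁻¹ := by
    apply (continuous_inv.continuousAt (x := g⁻¹)).preimage_mem_nhds
    rw [inv_inv]
    exact hU
  obtain ⟨q, hq, hqB, P, hP, hqP, σ, hσ1, hσ⟩ := fb_dense g⁻¹ _ hU1 (B ∪ {ℓ, p})
  rw [Finset.mem_union, Finset.mem_insert, Finset.mem_singleton, not_or, not_or] at hqB
  obtain ⟨hqB1, hql, hqp⟩ := hqB
  refine ⟨σ⁻¹, hσ1, q, hq.pos, ?_, ?_, ?_⟩
  · rw [← cyc_frob hq (Ne.symm hql) hP hqP hσ, ← tv_cyc_mul, inv_mul_cancel, tv_cyc_one]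
  · rw [← cycC_frob hq (Ne.symm hqp) hP hqP hσ, ← cycC_mul, inv_mul_cancel, cycC_one]
  · exact hB q hq hqB1 P hP hqP σ hσ

section

variable {K : Type} [Field K] [Algebra K Qbar] {E : Type} [Field E] {p ℓ : ℕ}
    [Fact p.Prime] [Fact ℓ.Prime] {ip : E →+* ℂ_[p]} {il : E →+* PadicAlgCl ℓ} {y m : ℕ}
    {R : (Qbar ≃ₐ[K] Qbar) →* Matrix (Fin y ⊕ Fin m) (Fin y ⊕ Fin m) ℂ_[p]}
    {V : Type} [AddCommGroup V] [Module (PadicAlgCl ℓ) V] [Module.Finite (PadicAlgCl ℓ) V]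
    {π : Representation (PadicAlgCl ℓ) (Qbar ≃ₐ[K] Qbar) V} {t : Qbar ≃ₐ[K] Qbar} {q : ℕ}

theorem Fr.ne_l (h : Fr ip il R π t q) : (q : PadicAlgCl ℓ) ≠ 0 := by
  have := h.pos.ne'
  exact_mod_cast this

theorem Fr.ne_p (h : Fr ip il R π t q) : (q : ℂ_[p]) ≠ 0 := by
  have := h.pos.ne'
  exact_mod_cast this

theorem Fr.cyc_pow (h : Fr ip il R π t q) (n j : ℕ) :
    Pool.Agent.TT.cyc ℓ (t ^ n) ^ j = (((q ^ n) ^ j : ℕ) : PadicAlgCl ℓ)⁻¹ := by
  have hc1 : ∀ n : ℕ, Pool.Agent.TT.cyc ℓ (t ^ n) * (q : PadicAlgCl ℓ) ^ n = 1 := by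
    intro n
    induction n with
    | zero => rw [pow_zero, pow_zero, tv_cyc_one, mul_one]
    | succ n ih =>
      rw [pow_succ, tv_cyc_mul, pow_succ]
      calc Pool.Agent.TT.cyc ℓ (t ^ n) * Pool.Agent.TT.cyc ℓ t * ((q : PadicAlgCl ℓ) ^ n * q) =
          (Pool.Agent.TT.cyc ℓ (t ^ n) * (q : PadicAlgCl ℓ) ^ n) *
            (Pool.Agent.TT.cyc ℓ t * q) := by ring
        _ = 1 := by rw [ih, h.cyc, one_mul]
  push_cast
  rw [← inv_pow]
  congr 1
  exact eq_inv_of_mul_eq_one_left (hc1 n)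

theorem Fr.cycp_pow (h : Fr ip il R π t q) (n j : ℕ) :
    cycC p (t ^ n) ^ j = (((q ^ n) ^ j : ℕ) : ℂ_[p])⁻¹ := by
  have hc2 : ∀ n : ℕ, cycC p (t ^ n) * (q : ℂ_[p]) ^ n = 1 := by
    intro n
    induction n with
    | zero => rw [pow_zero, pow_zero, cycC_one, mul_one]
    | succ n ih =>
      rw [pow_succ, cycC_mul, pow_succ]
      calc cycC p (t ^ n) * cycC p t * ((q : ℂ_[p]) ^ n * q) =
          (cycC p (t ^ n) * (q : ℂ_[p]) ^ n) * (cycC p t * q) := by ring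
        _ = 1 := by rw [ih, h.cycp, one_mul]
  push_cast
  rw [← inv_pow]
  congr 1
  exact eq_inv_of_mul_eq_one_left (hc2 n)

/-- The multiplicity of the eigenvalue one of the powers of the twists. -/
theorem Fr.mult (h : Fr ip il R π t q) (j n : ℕ) :
    (Pool.Agent.TT.cyc ℓ (t ^ n) ^ j • π (t ^ n)).charpoly.rootMultiplicity 1 =
      (cycC p (t ^ n) ^ j • R (t ^ n)).charpoly.rootMultiplicity 1 := by
  obtain ⟨f, hf1, hf2⟩ := h.poly
  have hc0 : (((q ^ n) ^ j : ℕ) : PadicAlgCl ℓ)⁻¹ ≠ 0 := by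
    push_cast
    exact inv_ne_zero (pow_ne_zero _ (pow_ne_zero _ h.ne_l))
  have hc0' : (((q ^ n) ^ j : ℕ) : ℂ_[p])⁻¹ ≠ 0 := by
    push_cast
    exact inv_ne_zero (pow_ne_zero _ (pow_ne_zero _ h.ne_p))
  rw [h.cyc_pow, h.cycp_pow, mu_smul _ _ hc0, um_smul _ _ hc0', inv_inv, inv_inv, map_pow, map_pow]
  exact fr_pow ip il (R t) (π t) f hf1 hf2 n _

/-- The roots of unity among the eigenvalues at `p`. -/
theorem Fr.small (h : Fr ip il R π t q) {j : ℕ} (x : ℂ_[p])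
    {r : ℕ} (hr : 0 < r) (hx : x ^ r = 1) (hroot : (R t).charpoly.IsRoot ((q : ℂ_[p]) ^ j * x)) :
    SmallRoot ip (y + m) x := by
  obtain ⟨f, hf1, hf2⟩ := h.poly
  have hq0 : ((q : E) ^ j) ≠ 0 := by
    apply pow_ne_zero
    intro h0
    have h1 := congrArg ip h0
    rw [map_natCast, map_zero] at h1
    exact h.ne_p h1
  have hf0 : f ≠ 0 := by
    rintro rfl
    rw [Polynomial.map_zero] at hf1
    exact (Matrix.charpoly_monic _).ne_zero hf1
  have hfd : f.natDegree = y + m := by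
    rw [← Polynomial.natDegree_map_eq_of_injective ip.injective f, ← hf1,
      Matrix.charpoly_natDegree_eq_dim]
    simp
  refine ⟨⟨r, hr, hx⟩, f.comp (C ((q : E) ^ j) * X), ?_, ?_, ?_⟩
  · intro h0
    have h1 : (f.comp (C ((q : E) ^ j) * X)).coeff f.natDegree = 0 := by rw [h0, coeff_zero]
    rw [Polynomial.comp_C_mul_X_coeff] at h1
    exact mul_ne_zero (mt leadingCoeff_eq_zero.mp hf0) (pow_ne_zero _ hq0) h1
  · rw [Polynomial.natDegree_comp, Polynomial.natDegree_C_mul_X _ hq0, mul_one, hfd]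
  · rw [hf1] at hroot
    rw [IsRoot.def, Polynomial.map_comp, Polynomial.eval_comp, Polynomial.map_mul,
      Polynomial.map_C, Polynomial.map_X, eval_mul, eval_C, eval_X, map_pow, map_natCast]
    exact hroot

/-- The roots of unity among the eigenvalues at `ℓ`. -/
theorem Fr.transfer (h : Fr ip il R π t q) {j : ℕ} (x : PadicAlgCl ℓ)
    {r : ℕ} (hr : 0 < r) (hx : x ^ r = 1)
    (hroot : (π t).charpoly.IsRoot ((q : PadicAlgCl ℓ) ^ j * x)) :
    ∃ x' : ℂ_[p], (∀ n : ℕ, x' ^ n = 1 ↔ x ^ n = 1) ∧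
      (R t).charpoly.IsRoot ((q : ℂ_[p]) ^ j * x') := by
  obtain ⟨f, hf1, hf2⟩ := h.poly
  rw [hf2] at hroot
  rw [hf1]
  obtain ⟨x', hx', hroot'⟩ := root_transfer il ip f ((q : E) ^ j) x hr hx (by
    rw [map_pow, map_natCast]
    exact hroot)
  refine ⟨x', hx', ?_⟩
  rw [map_pow, map_natCast] at hroot'
  exact hroot'

/-- The eigenvalues of the twist at `ℓ`. -/
theorem Fr.root_l (h : Fr ip il R π t q) (j : ℕ) (x : PadicAlgCl ℓ)
    (hx : (Pool.Agent.TT.cyc ℓ t ^ j • π t).charpoly.IsRoot x) :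
    (π t).charpoly.IsRoot ((q : PadicAlgCl ℓ) ^ j * x) := by
  have h1 := h.cyc_pow 1 j
  rw [pow_one, pow_one] at h1
  push_cast at h1
  rw [← Module.End.hasEigenvalue_iff_isRoot_charpoly] at hx ⊢
  obtain ⟨v, hv⟩ := hx.exists_hasEigenvector
  apply Module.End.hasEigenvalue_of_hasEigenvector (x := v)
  refine ⟨?_, hv.2⟩
  rw [Module.End.mem_eigenspace_iff]
  have h3 : Pool.Agent.TT.cyc ℓ t ^ j • π t v = x • v := hv.apply_eq_smul
  rw [mul_smul, ← h3, smul_smul, h1, mul_inv_cancel₀ (pow_ne_zero _ h.ne_l), one_smul]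

/-- The eigenvalues of the twist at `p`. -/
theorem Fr.root_p (h : Fr ip il R π t q) (j : ℕ) (x : ℂ_[p])
    (hx : (cycC p t ^ j • R t).charpoly.IsRoot x) :
    (R t).charpoly.IsRoot ((q : ℂ_[p]) ^ j * x) := by
  have h1 := h.cycp_pow 1 j
  rw [pow_one, pow_one] at h1
  push_cast at h1
  rw [← Matrix.charpoly_toLin', ← Module.End.hasEigenvalue_iff_isRoot_charpoly] at hx ⊢
  obtain ⟨v, hv⟩ := hx.exists_hasEigenvector
  apply Module.End.hasEigenvalue_of_hasEigenvector (x := v)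
  refine ⟨?_, hv.2⟩
  rw [Module.End.mem_eigenspace_iff]
  have h3 : cycC p t ^ j • Matrix.toLin' (R t) v = x • v := by
    have h4 := hv.apply_eq_smul
    rw [map_smul, LinearMap.smul_apply] at h4
    exact h4
  rw [mul_smul, ← h3, smul_smul, h1, mul_inv_cancel₀ (pow_ne_zero _ h.ne_p), one_smul]

theorem Fr.root_p' (h : Fr ip il R π t q) (j : ℕ) (x : ℂ_[p])
    (hx : (R t).charpoly.IsRoot ((q : ℂ_[p]) ^ j * x)) :
    (cycC p t ^ j • R t).charpoly.IsRoot x := by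
  have h1 := h.cycp_pow 1 j
  rw [pow_one, pow_one] at h1
  push_cast at h1
  rw [← Matrix.charpoly_toLin', ← Module.End.hasEigenvalue_iff_isRoot_charpoly] at hx ⊢
  obtain ⟨v, hv⟩ := hx.exists_hasEigenvector
  apply Module.End.hasEigenvalue_of_hasEigenvector (x := v)
  refine ⟨?_, hv.2⟩
  rw [Module.End.mem_eigenspace_iff, map_smul, LinearMap.smul_apply, hv.apply_eq_smul, h1,
    smul_smul, inv_mul_cancel_left₀ (pow_ne_zero _ h.ne_p)]

end

end Pool.Agent.AC
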