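import Mathlib

/-!
# The reduced characteristic polynomial of a matrix with two lattices
-/

set_option autoImplicit false

namespace Pool.Agent.AC

open Matrix Polynomial

section

variable {R : Type*} [CommRing R] {y m : ℕ}

/-- The reduced characteristic polynomial at one of `(1 + lam A, B; lam C, D)`. -/
noncomputable def qm (lam : R) (A : Matrix (Fin y) (Fin y) R) (B : Matrix (Fin y) (Fin m) R)
    (Cc : Matrix (Fin m) (Fin y) R) (D : Matrix (Fin m) (Fin m) R) : R[X] :=
  (fromBlocks (Matrix.scalar (Fin y) X - A.map C) (-(B.map C)) (-(Cc.map C))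
    (Matrix.scalar (Fin m) (1 + C lam * X) - D.map C)).det

/-- The relation with the characteristic polynomial. -/
theorem qm_charpoly (lam : R) (A : Matrix (Fin y) (Fin y) R) (B : Matrix (Fin y) (Fin m) R)
    (Cc : Matrix (Fin m) (Fin y) R) (D : Matrix (Fin m) (Fin m) R) :
    (fromBlocks (1 + lam • A) B (lam • Cc) D - 1).charpoly.comp (C lam * X) =
      qm lam A B Cc D * C lam ^ y := by
  have h0 : (fromBlocks (1 + lam • A) B (lam • Cc) D - 1 :
      Matrix (Fin y ⊕ Fin m) (Fin y ⊕ Fin m) R) =
      fromBlocks (lam • A) B (lam • Cc) (D - 1) := by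
    rw [← fromBlocks_one, sub_eq_add_neg, fromBlocks_neg, fromBlocks_add, neg_zero, add_zero,
      neg_zero, add_zero, ← sub_eq_add_neg, ← sub_eq_add_neg, add_sub_cancel_left]
  rw [h0]
  have h1 : (fromBlocks (lam • A) B (lam • Cc) (D - 1)).charpoly.comp (C lam * X) =
      ((Polynomial.compRingHom (C lam * X)).mapMatrix
        (charmatrix (fromBlocks (lam • A) B (lam • Cc) (D - 1)))).det := by
    rw [← RingHom.map_det]
    rfl
  have h2 : (Polynomial.compRingHom (C lam * X)).mapMatrix
        (charmatrix (fromBlocks (lam • A) B (lam • Cc) (D - 1))) =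
      fromBlocks (Matrix.scalar (Fin y) X - A.map C) (-(B.map C)) (-(Cc.map C))
        (Matrix.scalar (Fin m) (1 + C lam * X) - D.map C) *
        fromBlocks (Matrix.scalar (Fin y) (C lam)) 0 0 1 := by
    rw [fromBlocks_multiply]
    simp only [Matrix.mul_zero, Matrix.mul_one, add_zero, zero_add]
    ext i j : 1
    rcases i with i | i <;> rcases j with j | j
    · simp only [RingHom.mapMatrix_apply, Matrix.map_apply, charmatrix_apply, fromBlocks_apply₁₁,
        Polynomial.coe_compRingHom_apply, Matrix.sub_apply, Matrix.mul_apply, Matrix.scalar_apply,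
        Matrix.diagonal_apply, Matrix.smul_apply, smul_eq_mul,
        Sum.inl.injEq, mul_ite, mul_zero, Finset.sum_ite_eq', Finset.mem_univ,
        if_true]
      by_cases h : i = j
      · subst h
        simp only [if_true, Polynomial.sub_comp, Polynomial.X_comp, Polynomial.C_comp]
        simp only [map_mul]
        ring
      · simp only [h, if_false, Polynomial.sub_comp, Polynomial.C_comp,
          Polynomial.zero_comp]
        simp only [map_mul]
        ring
    · simp [RingHom.mapMatrix_apply, charmatrix_apply]
    · simp only [RingHom.mapMatrix_apply, Matrix.map_apply, charmatrix_apply, fromBlocks_apply₂₁,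
        Polynomial.coe_compRingHom_apply, Matrix.mul_apply, Matrix.scalar_apply,
        Matrix.diagonal_apply, Matrix.smul_apply, Matrix.neg_apply, smul_eq_mul, mul_ite, mul_zero,
        Finset.sum_ite_eq', Finset.mem_univ, if_true, reduceCtorEq, if_false, Polynomial.sub_comp,
        Polynomial.zero_comp, Polynomial.C_comp]
      simp only [map_mul]
      ring
    · simp only [RingHom.mapMatrix_apply, Matrix.map_apply, charmatrix_apply, fromBlocks_apply₂₂,
        Polynomial.coe_compRingHom_apply, Matrix.sub_apply, Matrix.scalar_apply,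
        Matrix.diagonal_apply, Sum.inr.injEq]
      by_cases h : i = j
      · subst h
        simp
        ring
      · simp [h]
  rw [h1, h2, det_mul, det_fromBlocks_zero₂₁, det_one, mul_one]
  simp [qm]

theorem qm_map {S : Type*} [CommRing S] (f : R →+* S) (lam : R) (A : Matrix (Fin y) (Fin y) R)
    (B : Matrix (Fin y) (Fin m) R) (Cc : Matrix (Fin m) (Fin y) R)
    (D : Matrix (Fin m) (Fin m) R) :
    (qm lam A B Cc D).map f = qm (f lam) (A.map f) (B.map f) (Cc.map f) (D.map f) := by
  have h1 : (qm lam A B Cc D).map f = (Polynomial.mapRingHom f) (qm lam A B Cc D) := rfl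
  rw [h1, qm, RingHom.map_det, qm]
  congr 1
  ext i j : 1
  rcases i with i | i <;> rcases j with j | j
  · by_cases h : i = j
    · subst h; simp
    · simp [h]
  · simp
  · simp
  · by_cases h : i = j
    · subst h; simp
    · simp [h]

/-- The reduction. -/
theorem qm_zero (A : Matrix (Fin y) (Fin y) R) (B : Matrix (Fin y) (Fin m) R)
    (Cc : Matrix (Fin m) (Fin y) R) (D : Matrix (Fin m) (Fin m) R) (hD : IsUnit (D - 1)) :
    ∃ u : R, IsUnit u ∧ qm 0 A B Cc D = C u * (A - B * (D - 1)⁻¹ * Cc).charpoly := by
  have hu : IsUnit (D - 1).det := (Matrix.isUnit_iff_isUnit_det _).1 hD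
  set E : Matrix (Fin m) (Fin m) R := D - 1 with hE
  have hinv : E * E⁻¹ = 1 := Matrix.mul_nonsing_inv _ hu
  have hinv2 : E⁻¹ * E = 1 := Matrix.nonsing_inv_mul _ hu
  have h22 : Matrix.scalar (Fin m) (1 + C (0 : R) * X) - D.map C =
      -(E.map (C : R →+* R[X])) := by
    rw [hE]
    ext i j : 1
    by_cases h : i = j
    · subst h; simp
    · simp [h, Matrix.one_apply]
  let I : Invertible (-(E.map (C : R →+* R[X]))) :=
    { invOf := -(E⁻¹.map (C : R →+* R[X]))
      invOf_mul_self := by
        rw [neg_mul_neg, ← Matrix.map_mul, hinv2]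
        exact Matrix.map_one _ (map_zero _) (map_one _)
      mul_invOf_self := by
        rw [neg_mul_neg, ← Matrix.map_mul, hinv]
        exact Matrix.map_one _ (map_zero _) (map_one _) }
  refine ⟨(-E).det, ?_, ?_⟩
  · rw [Matrix.det_neg]
    exact ((isUnit_one.neg).pow _).mul hu
  · rw [qm, h22, det_fromBlocks₂₂]
    have h1 : (-(E.map (C : R →+* R[X]))).det = C (-E).det := by
      rw [RingHom.map_det]
      congr 1
      ext i j : 1
      simp
    have h2 : Matrix.scalar (Fin y) X - A.map (C : R →+* R[X]) -
        -(B.map C) * ⅟(-(E.map (C : R →+* R[X]))) * -(Cc.map C) =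
        charmatrix (A - B * E⁻¹ * Cc) := by
      have h3 : ⅟(-(E.map (C : R →+* R[X]))) = -(E⁻¹.map (C : R →+* R[X])) := rfl
      rw [h3]
      simp only [Matrix.neg_mul, Matrix.mul_neg, neg_neg]
      rw [← Matrix.map_mul, ← Matrix.map_mul]
      generalize B * E⁻¹ * Cc = Z
      ext i j : 1
      by_cases h : i = j
      · subst h
        simp [charmatrix_apply]
        ring
      · simp [charmatrix_apply, h]
        ring
    rw [h1, h2]
    rfl

/-- The coefficients. -/
theorem qm_coeff [IsDomain R] (lam : R) (hlam : lam ≠ 0) (A : Matrix (Fin y) (Fin y) R)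
    (B : Matrix (Fin y) (Fin m) R) (Cc : Matrix (Fin m) (Fin y) R)
    (D : Matrix (Fin m) (Fin m) R) (e : ℕ)
    (h : (fromBlocks (1 + lam • A) B (lam • Cc) D - 1).charpoly.coeff e = 0) :
    (qm lam A B Cc D).coeff e = 0 := by
  have h1 := congrArg (fun f => Polynomial.coeff f e) (qm_charpoly lam A B Cc D)
  simp only [Polynomial.comp_C_mul_X_coeff, ← Polynomial.C_pow, Polynomial.coeff_mul_C, h,
    zero_mul] at h1
  exact (mul_eq_zero.mp h1.symm).resolve_right (pow_ne_zero _ hlam)

end

/-! ### The degree in the parameter -/

section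

variable {k : Type*} [CommRing k]

/-- All coefficients have degree at most `n`. -/
def DegLe (n : ℕ) (f : k[X][X]) : Prop := ∀ e, (f.coeff e).natDegree ≤ n

theorem DegLe.mul {n n' : ℕ} {f g : k[X][X]} (hf : DegLe n f) (hg : DegLe n' g) :
    DegLe (n + n') (f * g) := by
  intro e
  rw [Polynomial.coeff_mul]
  refine Polynomial.natDegree_sum_le_of_forall_le _ _ fun x _ => ?_
  exact (Polynomial.natDegree_mul_le).trans (Nat.add_le_add (hf _) (hg _))

theorem degLe_one : DegLe 0 (1 : k[X][X]) := by
  intro e
  rw [Polynomial.coeff_one]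
  split_ifs
  · exact Polynomial.natDegree_one.le
  · exact Polynomial.natDegree_zero.le

theorem degLe_prod {ι : Type*} (s : Finset ι) (f : ι → k[X][X]) (h : ∀ i ∈ s, DegLe 1 (f i)) :
    DegLe s.card (∏ i ∈ s, f i) := by
  classical
  induction s using Finset.induction_on with
  | empty => exact degLe_one
  | insert a s ha ih =>
    rw [Finset.prod_insert ha, Finset.card_insert_of_notMem ha, add_comm]
    exact (h a (Finset.mem_insert_self _ _)).mul
      (ih fun i hi => h i (Finset.mem_insert_of_mem hi))

/-- The degree in the parameter of the coefficients of a characteristic polynomial. -/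
theorem charpoly_degLe {y : ℕ} (A S : Matrix (Fin y) (Fin y) k) (e : ℕ) :
    ((A.map C + (X : k[X]) • S.map C).charpoly.coeff e).natDegree ≤ y := by
  have h1 : DegLe y (A.map C + (X : k[X]) • S.map C).charpoly := by
    rw [Matrix.charpoly, Matrix.det_apply]
    intro e
    rw [Polynomial.finsetSum_coeff]
    refine Polynomial.natDegree_sum_le_of_forall_le _ _ fun σ _ => ?_
    have h2 : DegLe y (∏ i, charmatrix (A.map C + (X : k[X]) • S.map C) (σ i) i) := by
      have h3 := degLe_prod (Finset.univ : Finset (Fin y))
        (fun i => charmatrix (A.map C + (X : k[X]) • S.map C) (σ i) i) (by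
          intro i _ e
          rw [charmatrix_apply, Polynomial.coeff_sub, Polynomial.coeff_C, Matrix.diagonal_apply]
          refine (Polynomial.natDegree_sub_le _ _).trans (max_le ?_ ?_)
          · by_cases h : σ i = i
            · rw [if_pos h, Polynomial.coeff_X]
              split_ifs
              · exact Polynomial.natDegree_one.le.trans zero_le_one
              · exact Polynomial.natDegree_zero.le.trans zero_le_one
            · rw [if_neg h, Polynomial.coeff_zero, Polynomial.natDegree_zero]
              exact zero_le_one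
          · split_ifs
            · rw [Matrix.add_apply, Matrix.smul_apply, Matrix.map_apply, Matrix.map_apply,
                smul_eq_mul]
              refine (Polynomial.natDegree_add_le _ _).trans (max_le ?_ ?_)
              · exact (Polynomial.natDegree_C _).le.trans zero_le_one
              · refine Polynomial.natDegree_mul_le.trans ?_
                rw [Polynomial.natDegree_C, add_zero]
                exact Polynomial.natDegree_X_le
            · exact Polynomial.natDegree_zero.le.trans zero_le_one)
      rwa [Finset.card_univ, Fintype.card_fin] at h3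
    rcases Int.units_eq_one_or (Equiv.Perm.sign σ) with h4 | h4
    · rw [h4, one_smul]
      exact h2 e
    · rw [h4, Units.neg_smul, one_smul, Polynomial.coeff_neg, Polynomial.natDegree_neg]
      exact h2 e
  exact h1 e

end

end Pool.Agent.AC
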