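import Pool.Agent.Lib_helper87.UB.Defs
import Pool.Agent.Lib_helper61.TU.Main

/-!
# Frobenius elements and the eigenvalues that are roots of unity
-/

set_option autoImplicit false

namespace Pool.Agent.AC

open Matrix NumberField Topology Polynomial
open Pool.Agent.TT Pool.Agent.TB Pool.Agent.TF Pool.Agent.RF Pool.Agent.TU Pool.Agent.UB

/-- A root of unity times an element of the base field that is a root of the image of `f` under one
embedding. -/
theorem root_transfer {E C₁ C₂ : Type} [Field E] [Field C₁] [Field C₂] [IsAlgClosed C₂]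
    (ι₁ : E →+* C₁) (ι₂ : E →+* C₂) (f : E[X]) (c : E) (x : C₁) {M : ℕ} (hM : 0 < M)
    (hx : x ^ M = 1) (hroot : (f.map ι₁).IsRoot (ι₁ c * x)) :
    ∃ x' : C₂, (∀ n : ℕ, x' ^ n = 1 ↔ x ^ n = 1) ∧ (f.map ι₂).IsRoot (ι₂ c * x') := by
  let _ := ι₁.toAlgebra
  let _ := ι₂.toAlgebra
  have hint : IsIntegral E x := by
    refine ⟨X ^ M - C 1, monic_X_pow_sub_C _ hM.ne', ?_⟩
    rw [eval₂_sub, eval₂_X_pow, eval₂_C, map_one, hx, sub_self]
  let L : IntermediateField E C₁ := IntermediateField.adjoin E {x}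
  have halg : Algebra.IsAlgebraic E L := IntermediateField.isAlgebraic_adjoin_simple hint
  let ψ : L →ₐ[E] C₂ := IsAlgClosed.lift
  let g : L := ⟨x, IntermediateField.mem_adjoin_simple_self E x⟩
  refine ⟨ψ g, ?_, ?_⟩
  · intro n
    have hinj : Function.Injective ψ := ψ.toRingHom.injective
    rw [← map_pow, ← map_one ψ, hinj.eq_iff, Subtype.ext_iff]
    exact Iff.rfl
  · have h1 : (f.map (algebraMap E L)).IsRoot (algebraMap E L c * g) := by
      have h2 : (f.map ι₁) = (f.map (algebraMap E L)).map (algebraMap L C₁) := by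
        rw [Polynomial.map_map]
        rfl
      rw [h2] at hroot
      have h3 : ι₁ c * x = algebraMap L C₁ (algebraMap E L c * g) := rfl
      rw [h3] at hroot
      have h4 : ((f.map (algebraMap E L)).map (algebraMap L C₁)).eval
          (algebraMap L C₁ (algebraMap E L c * g)) = 0 := hroot
      rw [Polynomial.eval_map_apply] at h4
      exact (map_eq_zero_iff _ (algebraMap L C₁).injective).mp h4
    have h5 : (f.map ι₂) = (f.map (algebraMap E L)).map (ψ : L →+* C₂) := by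
      rw [Polynomial.map_map]
      congr 1
      exact (ψ.comp_algebraMap).symm
    have h6 : ι₂ c * ψ g = (ψ : L →+* C₂) (algebraMap E L c * g) := by
      rw [map_mul]
      congr 1
      exact (ψ.commutes c).symm
    rw [h5, h6]
    show ((f.map (algebraMap E L)).map (ψ : L →+* C₂)).eval
      ((ψ : L →+* C₂) (algebraMap E L c * g)) = 0
    rw [Polynomial.eval_map_apply]
    have h7 : (f.map (algebraMap E L)).eval (algebraMap E L c * g) = 0 := h1
    rw [h7, map_zero]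

/-- The inverses of the Frobenius elements are dense; the eigenvalues that are roots of unity. -/
theorem ac_frob {K : Type} [Field K] [NumberField K] [Algebra K Qbar] {p a : ℕ} [Fact p.Prime]
    {ζ : 𝓞 K} (hζ : IsPrimitiveRoot ζ (p ^ a)) (ha : 0 < a) {s : ℕ} (S : Fin s → Stratum K)
    (ip : K →+* ℂ_[p]) {y m : ℕ}
    (R : (Qbar ≃ₐ[K] Qbar) →* Matrix (Fin y ⊕ Fin m) (Fin y ⊕ Fin m) ℂ_[p])
    (hRT : SumTraces (fun σ => (R σ).trace) ip (p ^ a) ζ S)
    {ℓ : ℕ} [Fact ℓ.Prime] (il : K →+* PadicAlgCl ℓ)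
    {V : Type} [AddCommGroup V] [Module (PadicAlgCl ℓ) V] [Module.Finite (PadicAlgCl ℓ) V]
    (hV : Module.finrank (PadicAlgCl ℓ) V = y + m)
    (π : Representation (PadicAlgCl ℓ) (Qbar ≃ₐ[K] Qbar) V)
    (hπ : SumTraces (fun σ => LinearMap.trace (PadicAlgCl ℓ) V (π σ)) il (p ^ a) ζ S)
    (g : Qbar ≃ₐ[K] Qbar) (U : Set (Qbar ≃ₐ[K] Qbar)) (hU : U ∈ 𝓝 g) :
    ∃ t ∈ U, ∃ q : ℕ, FrobLike R π t q ∧ ∀ (j : ℕ) (x : PadicAlgCl ℓ) (M : ℕ), 0 < M →
      x ^ M = 1 → (π t).charpoly.IsRoot ((q : PadicAlgCl ℓ) ^ j * x) →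
        ∃ x' : ℂ_[p], (∀ n : ℕ, x' ^ n = 1 ↔ x ^ n = 1) ∧
          (R t).charpoly.IsRoot ((q : ℂ_[p]) ^ j * x') := by
  classical
  have hpp : p.Prime := Fact.out
  obtain ⟨B, hB⟩ := hRT
  obtain ⟨B', hB'⟩ := hπ
  have hU1 : (fun σ : Qbar ≃ₐ[K] Qbar => σ⁻¹) ⁻¹' U ∈ 𝓝 g⁻¹ := by
    apply (continuous_inv.continuousAt (x := g⁻¹)).preimage_mem_nhds
    rw [inv_inv]
    exact hU
  obtain ⟨q, hq, hqB, P, hP, hqP, σ, hσ1, hσ⟩ :=
    fb_dense g⁻¹ _ hU1 (B ∪ (B' ∪ (Finset.range (p ^ a + 1) ∪ {ℓ, p})))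
  rw [Finset.mem_union, Finset.mem_union, Finset.mem_union, Finset.mem_range,
    Finset.mem_insert, Finset.mem_singleton, not_or, not_or, not_or, not_or] at hqB
  obtain ⟨hqB1, hqB2, hqB3, hql, hqp⟩ := hqB
  have hqF : Fact q.Prime := ⟨hq⟩
  obtain ⟨φp, hφp, _⟩ := ft_phi hq hP hqP hσ
  have hm0 : 0 < p ^ a := pow_pos hpp.pos a
  obtain ⟨hζ', hmq⟩ := rs_reduce hq hm0 (by omega) hζ hP hqP φp hφp
  have hdvd : p ∣ q - 1 := (dvd_pow_self p ha.ne').trans hmq
  have hq0 : (q : PadicAlgCl ℓ) ≠ 0 := by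
    have := hq.ne_zero
    exact_mod_cast this
  refine ⟨σ⁻¹, hσ1, q, ?_⟩
  -- the traces of the powers
  obtain ⟨t, ht⟩ : ∃ (t : ℕ → IntermediateField.adjoin ℚ {(ζ : K)}),
      ∀ r' : ℕ, 1 ≤ r' →
      (LinearMap.trace (PadicAlgCl ℓ) V (π (σ⁻¹ ^ r')) = il (t r' : K) ∧
        (R (σ⁻¹ ^ r')).trace = ip (t r' : K)) := by
    let _ : ∀ r, Fintype (GaloisField q r) := fun r => Fintype.ofFinite _
    have hcardF : ∀ r, 1 ≤ r → Fintype.card (GaloisField q r) = q ^ r := by
      intro r hr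
      rw [← Nat.card_eq_fintype_card]
      exact GaloisField.card q r (by omega)
    let φ : ∀ r, 𝓞 K →+* GaloisField q r := fun r =>
      (algebraMap (ZMod q) (GaloisField q r)).comp φp
    have hφ0 : ∀ r (x : 𝓞 K), φ r x = 0 ↔ algebraMap (𝓞 K) (𝓞 Qbar) x ∈ P := by
      intro r x
      rw [← hφp]
      exact map_eq_zero_iff _ (algebraMap (ZMod q) (GaloisField q r)).injective
    refine ⟨fun r => ⟨_, tu_sum_mem (p ^ a) ζ (φ r) S⟩, ?_⟩
    intro r' hr'
    have hfr : ∀ x y : 𝓞 Qbar, (y : Qbar) = (σ ^ r') x →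
        y - x ^ Fintype.card (GaloisField q r') ∈ P := by
      rw [hcardF r' hr']
      exact pl_frob_pow hσ r'
    rw [inv_pow]
    exact ⟨hB' q hq hqB2 P hP hqP (GaloisField q r') (φ r') (hφ0 r') (σ ^ r') hfr,
      hB q hq hqB1 P hP hqP (GaloisField q r') (φ r') (hφ0 r') (σ ^ r') hfr⟩
  -- the characteristic polynomials over `ℚ(ζ)`
  let E : IntermediateField ℚ K := IntermediateField.adjoin ℚ {(ζ : K)}
  let ι : E →+* PadicAlgCl ℓ := il.comp (algebraMap E K)
  let ι' : E →+* ℂ_[p] := ip.comp (algebraMap E K)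
  have hinj1 : Function.Injective (π σ⁻¹) := by
    intro x y hxy
    have h3 : π σ (π σ⁻¹ x) = π σ (π σ⁻¹ y) := by rw [hxy]
    rw [← Module.End.mul_apply, ← Module.End.mul_apply, ← map_mul, mul_inv_cancel, map_one,
      Module.End.one_apply, Module.End.one_apply] at h3
    exact h3
  have hinj2 : Function.Injective (Matrix.toLin' (R σ⁻¹)) := by
    intro x y hxy
    have h3 : Matrix.toLin' (R σ) (Matrix.toLin' (R σ⁻¹) x) =
        Matrix.toLin' (R σ) (Matrix.toLin' (R σ⁻¹) y) := by rw [hxy]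
    rw [← Matrix.toLin'_mul_apply, ← Matrix.toLin'_mul_apply, ← map_mul,
      mul_inv_cancel, map_one, Matrix.toLin'_one, LinearMap.id_apply, LinearMap.id_apply] at h3
    exact h3
  obtain ⟨f, hf, hf'⟩ := np_charpoly ι ι' (π σ⁻¹) (Matrix.toLin' (R σ⁻¹)) hinj1 hinj2 t
    (by
      intro r hr
      have h3 : π (σ⁻¹ ^ r) = π σ⁻¹ ^ r := map_pow π _ _
      have h4 := (ht r hr).1
      rw [h3] at h4
      exact h4)
    (by
      intro r hr
      have h3 : R (σ⁻¹ ^ r) = R σ⁻¹ ^ r := map_pow R _ _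
      have h4 := (ht r hr).2
      rw [h3] at h4
      rw [← Matrix.toLin'_pow, Matrix.trace_toLin'_eq]
      exact h4)
  rw [Matrix.charpoly_toLin'] at hf'
  have hf0 : f ≠ 0 := by
    rintro rfl
    rw [Polynomial.map_zero] at hf
    exact (LinearMap.charpoly_monic (π σ⁻¹)).ne_zero hf
  have hfd : f.natDegree = y + m := by
    have h3 := congrArg Polynomial.natDegree hf
    rw [LinearMap.charpoly_natDegree, hV,
      Polynomial.natDegree_map_eq_of_injective ι.injective] at h3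
    exact h3.symm
  refine ⟨⟨hq.pos, ?_, ?_, ?_, ?_, ?_⟩, ?_⟩
  · obtain ⟨c, hc⟩ := hdvd
    have h1 : (q : ℂ_[p]) - 1 = (p : ℂ_[p]) * (c : ℂ_[p]) := by
      have h2 : ((q - 1 : ℕ) : ℂ_[p]) = ((p * c : ℕ) : ℂ_[p]) := by rw [hc]
      rw [Nat.cast_sub hq.one_le, Nat.cast_one, Nat.cast_mul] at h2
      exact h2
    rw [h1, norm_mul]
    apply mul_le_of_le_one_right (norm_nonneg _)
    exact IsUltrametricDist.norm_natCast_le_one _ c
  · rw [← cyc_frob hq (Ne.symm hql) hP hqP hσ, ← tv_cyc_mul, inv_mul_cancel, tv_cyc_one]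
  · rw [← cycC_frob hq (Ne.symm hqp) hP hqP hσ, ← cycC_mul, inv_mul_cancel, cycC_one]
  · intro c
    rw [hf, hf']
    have h1 : (c : PadicAlgCl ℓ) = ι (c : E) := (map_natCast ι c).symm
    have h2 : (c : ℂ_[p]) = ι' (c : E) := (map_natCast ι' c).symm
    rw [h1, h2, ← Polynomial.eq_rootMultiplicity_map ι.injective,
      ← Polynomial.eq_rootMultiplicity_map ι'.injective]
  · intro j u M hM huM hroot
    let z : PadicAlgCl ℓ := il (ζ : K)
    have hz : IsPrimitiveRoot z (p ^ a) := by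
      have h3 : IsPrimitiveRoot (algebraMap (𝓞 K) K ζ) (p ^ a) :=
        hζ.map_of_injective (RingOfIntegers.coe_injective)
      exact h3.map_of_injective il.injective
    let L : IntermediateField ℚ (PadicAlgCl ℓ) := IntermediateField.adjoin ℚ {z}
    have hEL : ∀ e : E, ι e ∈ L := by
      intro e
      have h3 : il.toRatAlgHom (e : K) ∈ (IntermediateField.adjoin ℚ {(ζ : K)}).map
          il.toRatAlgHom := ⟨(e : K), e.2, rfl⟩
      rw [IntermediateField.adjoin_map, Set.image_singleton] at h3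
      exact h3
    let κ : E →+* L := ι.codRestrict L.toSubring hEL
    have hκ : (algebraMap L (PadicAlgCl ℓ)).comp κ = ι := RingHom.ext fun e => rfl
    have hxr : ((f.map κ).scaleRoots ((q : L)⁻¹ ^ j)).eval₂ (algebraMap L (PadicAlgCl ℓ)) u =
        0 := by
      have h3 : (f.map κ).eval₂ (algebraMap L (PadicAlgCl ℓ)) ((q : PadicAlgCl ℓ) ^ j * u) =
          0 := by
        rw [Polynomial.eval₂_map, hκ, ← Polynomial.eval_map, ← hf]
        exact hroot
      have h4 := Polynomial.scaleRoots_eval₂_eq_zero (algebraMap L (PadicAlgCl ℓ))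
        (s := (q : L)⁻¹ ^ j) h3
      have h5 : algebraMap L (PadicAlgCl ℓ) ((q : L)⁻¹ ^ j) * ((q : PadicAlgCl ℓ) ^ j * u) =
          u := by
        rw [map_pow, map_inv₀, map_natCast, ← mul_assoc, ← mul_pow, inv_mul_cancel₀ hq0, one_pow,
          one_mul]
      rw [h5] at h4
      exact h4
    exact tu_order hpp hz L rfl
      (f := (f.map κ).scaleRoots ((q : L)⁻¹ ^ j)) (d := y + m)
      (Polynomial.scaleRoots_ne_zero ((Polynomial.map_ne_zero_iff κ.injective).mpr hf0) _)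
      (by rw [Polynomial.natDegree_scaleRoots,
            Polynomial.natDegree_map_eq_of_injective κ.injective, hfd]) hxr hM huM
  · intro j x M hM hx hroot
    rw [hf] at hroot
    rw [hf']
    obtain ⟨x', hx', hroot'⟩ := root_transfer ι ι' f ((q : E) ^ j) x hM hx (by
      rw [map_pow, map_natCast]
      exact hroot)
    refine ⟨x', hx', ?_⟩
    rw [map_pow, map_natCast] at hroot'
    exact hroot'

end Pool.Agent.AC
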