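import Pool.Agent.Lib_helper88.AC.Small

/-!
# The bound by brackets
-/

set_option autoImplicit false

namespace Pool.Agent.AC

open Matrix NumberField Topology Polynomial
open Pool.Agent.TT Pool.Agent.TB Pool.Agent.TF Pool.Agent.RF Pool.Agent.TU Pool.Agent.UB

/-- **The bound by brackets.** -/
theorem brackets_main {K : Type} [Field K] [NumberField K] [Algebra K Qbar] {E : Type} [Field E]
    {p : ℕ} [hp : Fact p.Prime] (ip : E →+* ℂ_[p]) {y m : ℕ}
    (R : (Qbar ≃ₐ[K] Qbar) →* Matrix (Fin y ⊕ Fin m) (Fin y ⊕ Fin m) ℂ_[p]) (hR : Continuous R)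
    (j : ℕ) (lam : ℂ_[p])
    (hlam0 : lam ≠ 0) (hlam1 : ‖lam‖ < 1) (hL : TwoLattices (fun g => cycC p g ^ j • R g) lam)
    (g₀ : Qbar ≃ₐ[K] Qbar) (hg₀ : ∀ x : ℂ_[p], SmallRoot ip (y + m) x →
      ‖((cycC p g₀ ^ j • R g₀).toBlocks₂₂ - x • 1).det‖ = 1) (e : ℕ)
    (he : ManyBrackets (fun g => cycC p g ^ j • R g) lam e)
    {ℓ : ℕ} [Fact ℓ.Prime] (il : E →+* PadicAlgCl ℓ) {V : Type} [AddCommGroup V]
    [Module (PadicAlgCl ℓ) V] [Module.Finite (PadicAlgCl ℓ) V]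
    (π : Representation (PadicAlgCl ℓ) (Qbar ≃ₐ[K] Qbar) V) (hπ : Compatible ip il R π) :
    TateClassesLE π j e := by
  classical
  intro H hH W₁ W₂ hW hT
  have hgal := Pool.Agent.TE.isGalois_Qbar (K := K)
  obtain ⟨N', hN'⟩ := ProfiniteGrp.exist_openNormalSubgroup_sub_open_nhds_of_one hH H.one_mem
  let N : Subgroup (Qbar ≃ₐ[K] Qbar) := N'.toSubgroup
  have hNn : N.Normal := N'.isNormal'
  have hNo : IsOpen (N : Set (Qbar ≃ₐ[K] Qbar)) := N'.isOpen'
  let π' := twist π j tv_cyc_mul tv_cyc_one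
  have hπ' : ∀ σ x, π' σ x = cyc ℓ σ ^ j • π σ x := fun σ x => rfl
  have hπ'' : ∀ σ, π' σ = cyc ℓ σ ^ j • π σ := fun σ => rfl
  obtain ⟨T, hTn, hNT, hTc⟩ := ht_group π' N
  -- the twisted representation
  let X : (Qbar ≃ₐ[K] Qbar) →* Matrix (Fin y ⊕ Fin m) (Fin y ⊕ Fin m) ℂ_[p] :=
    { toFun := fun g => cycC p g ^ j • R g
      map_one' := by rw [cycC_one, one_pow, one_smul, map_one]
      map_mul' := fun g h => by rw [cycC_mul, mul_pow, map_mul, smul_mul_smul_comm] }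
  have hXdef : ∀ g, X g = cycC p g ^ j • R g := fun g => rfl
  have hXc : Continuous X := by
    change Continuous (fun g => cycC p g ^ j • R g)
    exact ((cycC_continuous (p := p) (K := K)).pow j).smul hR
  have hXL : TwoLattices X lam := hL
  have hXg₀ : ∀ x : ℂ_[p], SmallRoot ip (y + m) x → ‖((X g₀).toBlocks₂₂ - x • 1).det‖ = 1 := hg₀
  have hXe : ManyBrackets X lam e := he
  clear_value X
  -- the reduction
  let lam' : nv ℂ_[p] := ⟨lam, hlam1.le⟩
  have hlam'0 : lam' ≠ 0 := fun h0 => hlam0 (congrArg Subtype.val h0)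
  obtain ⟨A, B, C, D, Ψ, hblk, hΨa, hΨb, hΨc, hΨd, hloc⟩ := re_data X hXc lam' hlam'0 hlam1 hXL
  have hchar : CharP (IsLocalRing.ResidueField (nv ℂ_[p])) p := residue_charP p
  have h11 : ∀ g, (X g).toBlocks₁₁ = (1 + lam' • A g).map (nv ℂ_[p]).subtype := by
    intro g
    rw [hblk g, Matrix.fromBlocks_map, Matrix.toBlocks_fromBlocks₁₁]
  have h22 : ∀ g, (X g).toBlocks₂₂ = (D g).map (nv ℂ_[p]).subtype := by
    intro g
    rw [hblk g, Matrix.fromBlocks_map, Matrix.toBlocks_fromBlocks₂₂]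
  have h12 : ∀ g, (X g).toBlocks₁₂ = (B g).map (nv ℂ_[p]).subtype := by
    intro g
    rw [hblk g, Matrix.fromBlocks_map, Matrix.toBlocks_fromBlocks₁₂]
  have h21 : ∀ g, (X g).toBlocks₂₁ = (lam' • C g).map (nv ℂ_[p]).subtype := by
    intro g
    rw [hblk g, Matrix.fromBlocks_map, Matrix.toBlocks_fromBlocks₂₁]
  have hsm : ∀ {i k : ℕ} (Y : Matrix (Fin i) (Fin k) (nv ℂ_[p])),
      (lam' • Y).map (nv ℂ_[p]).subtype = lam • Y.map (nv ℂ_[p]).subtype := by
    intro i k Y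
    ext i' k'
    rfl
  -- an inverse Frobenius element near `g₀`
  obtain ⟨t, htU, q, hq⟩ := fr_dense ip R il π hπ g₀ _ (hloc g₀)
  obtain ⟨-, -, -, htd⟩ := htU
  have hsm0 : ∀ x : nv ℂ_[p], SmallRoot ip (y + m) (x : ℂ_[p]) →
      IsUnit (Ψ.d t - IsLocalRing.residue (nv ℂ_[p]) x • 1) := by
    intro x hx
    rw [htd, hΨd]
    apply small_unit ip (D g₀) _ x hx
    rw [← h22]
    exact hXg₀
  have hd₀ : IsUnit (Ψ.d t - 1) := by
    rcases Nat.eq_zero_or_pos m with hm | hm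
    · subst hm
      exact isUnit_of_subsingleton _
    · have h1 := hsm0 1 (small_one ip (y + m) (by omega))
      rwa [map_one, one_smul] at h1
  have hZt : ∀ g, (fromBlocks (1 + lam' • A g) (B g) (lam' • C g) (D g)).map
      (IsLocalRing.residue (nv ℂ_[p])) = fromBlocks 1 (Ψ.b g) 0 (Ψ.d g) := by
    intro g
    have h1 : IsLocalRing.residue (nv ℂ_[p]) lam' = 0 := residue_zero _ hlam1
    rw [fromBlocks_map, hΨb, hΨd, map_add_matrix, map_one_matrix, map_smul_matrix, h1,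
      zero_smul, add_zero, map_smul_matrix, h1, zero_smul]
  -- a power in `T`
  obtain ⟨b₀, hb₀⟩ := exp_unif (p := p) (π' t).charpoly (LinearMap.charpoly_monic _).ne_zero (by
      rintro x ⟨N₀, hN₀, hxN⟩ hx
      obtain ⟨x', hx', hroot⟩ := hq.transfer x hN₀ hxN (hq.root_l j x hx)
      have hx'N : x' ^ N₀ = 1 := (hx' N₀).mpr hxN
      obtain ⟨ω, rfl⟩ := unity_nv x' hN₀ hx'N
      have h1 := small_root_one _ _ _ (hZt t) ω (hsm0 ω (hq.small _ hN₀ hx'N hroot)) (by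
        rw [← hblk t, hXdef]
        exact hq.root_p' j _ hroot)
      obtain ⟨b, hb⟩ := root_one (p := p) (IsLocalRing.residue (nv ℂ_[p])) ω hN₀
        (Subtype.ext hx'N) h1
      exact ⟨b, (hx' _).mp (congrArg Subtype.val hb)⟩)
  have hfi : N.FiniteIndex :=
    haveI := N.quotient_finite_of_isOpen hNo
    Subgroup.finiteIndex_of_finite_quotient
  obtain ⟨e₀, he₀, -, heN⟩ := Subgroup.exists_pow_mem_of_index_ne_zero hfi.index_ne_zero t
  have hg₂ : t ^ p ^ b₀ ∈ T := by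
    have := ht_pow π' N t he₀ heN (p ^ b₀) hb₀
    rw [← hTc] at this
    exact this
  set g₂ := t ^ p ^ b₀ with hg₂def
  have hd₂ : IsUnit (Ψ.d g₂ - 1) := by
    have h1 := char_pow (p := p) (Ψ.d t) 1 b₀ (by rwa [one_smul])
    rw [one_pow, one_smul] at h1
    rw [hg₂def, map_pow]
    exact h1
  -- the matrix `schur`
  have hdet : ∀ g, IsUnit (Ψ.d g - 1) → IsUnit (D g - 1).det := by
    intro g hg
    rw [Matrix.isUnit_iff_isUnit_det, isUnit_iff_ne_zero] at hg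
    have h1 : (Ψ.d g - 1).det = IsLocalRing.residue (nv ℂ_[p]) (D g - 1).det := by
      rw [RingHom.map_det, RingHom.mapMatrix_apply, Matrix.map_sub _ (map_sub _),
        Matrix.map_one _ (map_zero _) (map_one _), hΨd]
    rw [h1] at hg
    exact (IsLocalRing.residue_ne_zero_iff_isUnit _).mp hg
  have hschur : ∀ g, IsUnit (Ψ.d g - 1) → ∃ Z : Matrix (Fin y) (Fin y) (nv ℂ_[p]),
      schur lam (X g) = Z.map (nv ℂ_[p]).subtype ∧
        Ψ.star g = Z.map (IsLocalRing.residue (nv ℂ_[p])) := by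
    intro g hg
    have hu := hdet g hg
    refine ⟨A g - B g * (D g - 1)⁻¹ * C g, ?_, ?_⟩
    · unfold schur
      have h1 : (X g).toBlocks₂₂ - 1 = (D g - 1).map (nv ℂ_[p]).subtype := by
        rw [h22, Matrix.map_sub _ (map_sub _), Matrix.map_one _ (map_zero _) (map_one _)]
      have h2 : (X g).toBlocks₁₁ - 1 = lam • (A g).map (nv ℂ_[p]).subtype := by
        rw [h11, Matrix.map_add _ (map_add _), Matrix.map_one _ (map_zero _) (map_one _), hsm,
          add_sub_cancel_left]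
      rw [h2, h1, um_inv _ _ hu, h12, h21, hsm, Matrix.mul_smul, ← smul_sub, smul_smul,
        inv_mul_cancel₀ hlam0, one_smul, Matrix.map_sub _ (map_sub _), Matrix.map_mul,
        Matrix.map_mul]
    · unfold ResData.star
      have h1 : Ψ.d g - 1 = (D g - 1).map (IsLocalRing.residue (nv ℂ_[p])) := by
        rw [hΨd, Matrix.map_sub _ (map_sub _), Matrix.map_one _ (map_zero _) (map_one _)]
      rw [h1, um_inv _ _ hu, hΨa, hΨb, hΨc, Matrix.map_sub _ (map_sub _), Matrix.map_mul,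
        Matrix.map_mul]
  -- the elements `u_i`, `v_i`
  have hred : ∀ g, ResiduallyOne (X g) → Ψ.d g = 1 := by
    intro g hg
    ext i k
    rw [hΨd, Matrix.map_apply]
    have h1 : ‖(((D g i k - (1 : Matrix (Fin m) (Fin m) (nv ℂ_[p])) i k : nv ℂ_[p])) :
        ℂ_[p])‖ < 1 := by
      have h2 := hg i k
      rw [h22, Matrix.sub_apply, Matrix.map_apply] at h2
      have h3 : (((1 : Matrix (Fin m) (Fin m) (nv ℂ_[p])) i k : nv ℂ_[p]) : ℂ_[p]) =
          (1 : Matrix (Fin m) (Fin m) ℂ_[p]) i k := by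
        rw [Matrix.one_apply, Matrix.one_apply]
        split_ifs
        · rfl
        · rfl
      have h4 : (((D g i k - (1 : Matrix (Fin m) (Fin m) (nv ℂ_[p])) i k : nv ℂ_[p])) : ℂ_[p]) =
          ((D g i k : nv ℂ_[p]) : ℂ_[p]) - (1 : Matrix (Fin m) (Fin m) ℂ_[p]) i k := by
        rw [← h3]
        rfl
      rw [h4]
      exact h2
    have h5 := residue_zero _ h1
    rw [map_sub, sub_eq_zero] at h5
    rw [h5, Matrix.one_apply, Matrix.one_apply]
    split_ifs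
    · exact map_one _
    · exact map_zero _
  obtain ⟨r, u, v, huv, hco⟩ := hXe g₂ (by
    have h1 : (X g₂).toBlocks₂₂ - 1 = (D g₂ - 1).map (nv ℂ_[p]).subtype := by
      rw [h22, Matrix.map_sub _ (map_sub _), Matrix.map_one _ (map_zero _) (map_one _)]
    rw [h1, ← RingHom.mapMatrix_apply, ← RingHom.map_det]
    apply um_norm_unit
    exact (IsLocalRing.residue_ne_zero_iff_isUnit _).mpr (hdet g₂ hd₂))
  obtain ⟨w, hwT, hwd, hwb, hwc, hwa⟩ := gr_comm Ψ T g₂ hg₂ hd₂ u v (fun i => hred _ (huv i).1)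
    (fun i => hred _ (huv i).2)
  have hbr : ∑ i, bracket lam (X (u i)) (X (v i)) =
      (∑ i, (B (u i) * C (v i) - B (v i) * C (u i))).map (nv ℂ_[p]).subtype := by
    have h1 : ∀ g h, bracket lam (X g) (X h) =
        (B g * C h - B h * C g).map (nv ℂ_[p]).subtype := by
      intro g h
      unfold bracket
      rw [h12, h12, h21, h21, hsm, hsm, Matrix.mul_smul, Matrix.mul_smul, ← smul_sub, smul_smul,
        inv_mul_cancel₀ hlam0, one_smul, Matrix.map_sub _ (map_sub _), Matrix.map_mul,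
        Matrix.map_mul]
    rw [Finset.sum_congr rfl fun i _ => h1 (u i) (v i)]
    exact (map_sum (RingHom.mapMatrix (nv ℂ_[p]).subtype).toAddMonoidHom _ _).symm
  have hwa' : Ψ.a w = (∑ i, (B (u i) * C (v i) - B (v i) * C (u i))).map
      (IsLocalRing.residue (nv ℂ_[p])) := by
    rw [hwa]
    have h1 : ∀ i, Ψ.b (u i) * Ψ.c (v i) - Ψ.b (v i) * Ψ.c (u i) =
        (B (u i) * C (v i) - B (v i) * C (u i)).map (IsLocalRing.residue (nv ℂ_[p])) := by
      intro i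
      rw [Matrix.map_sub _ (map_sub _), Matrix.map_mul, Matrix.map_mul, hΨb, hΨb, hΨc, hΨc]
    rw [Finset.sum_congr rfl fun i _ => h1 i]
    exact (map_sum (RingHom.mapMatrix (IsLocalRing.residue (nv ℂ_[p]))).toAddMonoidHom _ _).symm
  obtain ⟨Z, hZ1, hZ2⟩ := hschur g₂ hd₂
  have hcoeff : (Ψ.star g₂ + Ψ.a w).charpoly.coeff e ≠ 0 := by
    rw [hwa', hZ2, ← Matrix.map_add _ (map_add _), Matrix.charpoly_map, Polynomial.coeff_map]
    apply um_res_ne
    rw [← hco, hbr, hZ1, ← Matrix.map_add _ (map_add _), Matrix.charpoly_map,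
      Polynomial.coeff_map]
    rfl
  obtain ⟨hxd, hxs⟩ := gr_star Ψ g₂ w hwd hwb hwc 1
  rw [pow_one, one_smul] at hxs
  rw [pow_one] at hxd
  set x := g₂ * w with hx
  have hxT : x ∈ T := T.mul_mem hg₂ hwT
  -- an inverse Frobenius element near `x`
  have hUx : {h : Qbar ≃ₐ[K] Qbar | (Ψ.a h = Ψ.a x ∧ Ψ.b h = Ψ.b x ∧ Ψ.c h = Ψ.c x ∧
      Ψ.d h = Ψ.d x) ∧ x⁻¹ * h ∈ N} ∈ 𝓝 x := by
    apply Filter.inter_mem (hloc x)
    apply (hNo.preimage (continuous_const_mul x⁻¹)).mem_nhds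
    rw [Set.mem_preimage, inv_mul_cancel]
    exact N.one_mem
  obtain ⟨t', ⟨⟨ht'a, ht'b, ht'c, ht'd⟩, ht'N⟩, q', hq'⟩ :=
    fr_dense ip R il π hπ x _ hUx
  have ht'T : t' ∈ T := by
    have h1 := T.mul_mem hxT (hNT ht'N)
    rwa [mul_inv_cancel_left] at h1
  have h1 := ht_mult π' N W₁ W₂ hW (fun h hh z hz => hT h (hN' hh) z hz) t' (by
    rw [← hTc]
    exact ht'T)
  refine h1.trans (Nat.add_le_add_left ?_ _)
  have h2 := hq'.mult j 1
  rw [pow_one] at h2
  rw [hπ'', h2, ← hXdef]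
  refine mu_bound (nv ℂ_[p]) lam' hlam'0 (residue_zero _ hlam1) (A t') (B t') (C t') (D t') ?_
    1 0 (map_zero _) ?_ e ?_ _ (hblk t')
  · rw [← hΨd, ht'd, hxd]
    exact hd₂
  · show (1 : ℂ_[p]) = 1 + lam * 0
    rw [mul_zero, add_zero]
  · rw [← hΨa, ← hΨb, ← hΨc, ← hΨd, ht'a, ht'b, ht'c, ht'd]
    have h5 : Ψ.a x - Ψ.b x * (Ψ.d x - 1)⁻¹ * Ψ.c x = Ψ.star x := rfl
    rw [h5, hxs]
    exact hcoeff

end Pool.Agent.AC
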