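import Pool.Agent.Lib_helper88.AC.Small

/-!
# The bound by a deep element
-/

set_option autoImplicit false

namespace Pool.Agent.AC

open Matrix NumberField Topology Polynomial
open Pool.Agent.TT Pool.Agent.TB Pool.Agent.TF Pool.Agent.RF Pool.Agent.TU Pool.Agent.UB

/-- A matrix that is close to another one. -/
theorem near_matrix {p : ℕ} [Fact p.Prime] {n : Type} (nu : nv ℂ_[p]) (hnu : nu ≠ 0)
    (Z : Matrix n n ℂ_[p]) (h : ∀ i k, ‖Z i k‖ < ‖(nu : ℂ_[p])‖) :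
    ∃ E : Matrix n n (nv ℂ_[p]), Z = (nu • E).map (nv ℂ_[p]).subtype ∧
      E.map (IsLocalRing.residue (nv ℂ_[p])) = 0 := by
  have hc : (nu : ℂ_[p]) ≠ 0 := fun h => hnu (Subtype.ext h)
  have h1 : ∀ i k, ‖Z i k / (nu : ℂ_[p])‖ < 1 := by
    intro i k
    rw [norm_div, div_lt_one (norm_pos_iff.mpr hc)]
    exact h i k
  refine ⟨fun i k => ⟨Z i k / (nu : ℂ_[p]), (h1 i k).le⟩, ?_, ?_⟩
  · ext i k
    show Z i k = (nu : ℂ_[p]) * (Z i k / (nu : ℂ_[p]))
    rw [mul_div_cancel₀ _ hc]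
  · ext i k
    exact residue_zero _ (h1 i k)

/-- **The bound by a deep element.** -/
theorem deep_main {K : Type} [Field K] [NumberField K] [Algebra K Qbar] {E : Type} [Field E]
    {p : ℕ} [hp : Fact p.Prime] (ip : E →+* ℂ_[p]) {y m : ℕ}
    (R : (Qbar ≃ₐ[K] Qbar) →* Matrix (Fin y ⊕ Fin m) (Fin y ⊕ Fin m) ℂ_[p]) (hR : Continuous R)
    (j : ℕ) (lam : ℂ_[p])
    (hlam0 : lam ≠ 0) (hlam1 : ‖lam‖ < 1) (hL : TwoLattices (fun g => cycC p g ^ j • R g) lam)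
    (g₀ : Qbar ≃ₐ[K] Qbar) (hg₀ : ∀ x : ℂ_[p], SmallRoot ip (y + m) x →
      ‖((cycC p g₀ ^ j • R g₀).toBlocks₂₂ - x • 1).det‖ = 1) (e : ℕ)
    (he : DeepElement (fun g => cycC p g ^ j • R g) e)
    {ℓ : ℕ} [Fact ℓ.Prime] (il : E →+* PadicAlgCl ℓ) {V : Type} [AddCommGroup V]
    [Module (PadicAlgCl ℓ) V] [Module.Finite (PadicAlgCl ℓ) V]
    (π : Representation (PadicAlgCl ℓ) (Qbar ≃ₐ[K] Qbar) V) (hπ : Compatible ip il R π) :
    TateClassesLE π j e := by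
  classical
  intro H hH W₁ W₂ _ hT
  have hgal := Pool.Agent.TE.isGalois_Qbar (K := K)
  -- the twisted representation
  let X : (Qbar ≃ₐ[K] Qbar) →* Matrix (Fin y ⊕ Fin m) (Fin y ⊕ Fin m) ℂ_[p] :=
    { toFun := fun g => cycC p g ^ j • R g
      map_one' := by rw [cycC_one, one_pow, one_smul, map_one]
      map_mul' := fun g h => by rw [cycC_mul, mul_pow, map_mul, smul_mul_smul_comm] }
  have hXdef : ∀ g, X g = cycC p g ^ j • R g := fun g => rfl
  have hXc : Continuous X := by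
    change Continuous (fun g => cycC p g ^ j • R g)
    exact ((cycC_continuous (p := p) (K := K)).pow j).smul hR
  have hXL : TwoLattices X lam := hL
  have hXg₀ : ∀ x : ℂ_[p], SmallRoot ip (y + m) x → ‖((X g₀).toBlocks₂₂ - x • 1).det‖ = 1 := hg₀
  obtain ⟨w, nu, N, hw, hnu0, hnu1, hnu, hN1, hN2, hN3⟩ := he
  have hXw : X w = 1 + nu • N := hw
  clear_value X
  -- the reduction
  let lam' : nv ℂ_[p] := ⟨lam, hlam1.le⟩
  let nu' : nv ℂ_[p] := ⟨nu, hnu1.le⟩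
  have hlam'0 : lam' ≠ 0 := fun h0 => hlam0 (congrArg Subtype.val h0)
  have hnu'0 : nu' ≠ 0 := fun h0 => hnu0 (congrArg Subtype.val h0)
  have hlam'r : IsLocalRing.residue (nv ℂ_[p]) lam' = 0 := residue_zero _ hlam1
  have hnu'r : IsLocalRing.residue (nv ℂ_[p]) nu' = 0 := residue_zero _ hnu1
  obtain ⟨A, B, C, D, Ψ, hblk, hΨa, hΨb, hΨc, hΨd, hloc⟩ := re_data X hXc lam' hlam'0 hlam1 hXL
  have hchar : CharP (IsLocalRing.ResidueField (nv ℂ_[p])) p := residue_charP p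
  set Zm : (Qbar ≃ₐ[K] Qbar) → Matrix (Fin y ⊕ Fin m) (Fin y ⊕ Fin m) (nv ℂ_[p]) := fun g =>
    fromBlocks (1 + lam' • A g) (B g) (lam' • C g) (D g) with hZm
  have hXZ : ∀ g, X g = (Zm g).map (nv ℂ_[p]).subtype := hblk
  have hinj : ∀ Y Y' : Matrix (Fin y ⊕ Fin m) (Fin y ⊕ Fin m) (nv ℂ_[p]),
      Y.map (nv ℂ_[p]).subtype = Y'.map (nv ℂ_[p]).subtype → Y = Y' := by
    intro Y Y' h
    ext i k
    exact congrFun (congrFun h i) k
  have hZr : ∀ g, (Zm g).map (IsLocalRing.residue (nv ℂ_[p])) =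
      fromBlocks 1 (Ψ.b g) 0 (Ψ.d g) := by
    intro g
    show (fromBlocks (1 + lam' • A g) (B g) (lam' • C g) (D g)).map
      (IsLocalRing.residue (nv ℂ_[p])) = _
    rw [fromBlocks_map, hΨb, hΨd, map_add_matrix, map_one_matrix, map_smul_matrix, hlam'r,
      zero_smul, add_zero, map_smul_matrix, hlam'r, zero_smul]
  -- the element `g₀`
  have hsm0 : ∀ x : nv ℂ_[p], SmallRoot ip (y + m) (x : ℂ_[p]) →
      IsUnit (Ψ.d g₀ - IsLocalRing.residue (nv ℂ_[p]) x • 1) := by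
    intro x hx
    have h22 : (X g₀).toBlocks₂₂ = (D g₀).map (nv ℂ_[p]).subtype := by
      rw [hblk g₀, Matrix.fromBlocks_map, Matrix.toBlocks_fromBlocks₂₂]
    rw [hΨd]
    apply small_unit ip (D g₀) _ x hx
    rw [← h22]
    exact hXg₀
  have hsmc : ∀ (c : ℕ) (x : nv ℂ_[p]), SmallRoot ip (y + m) (x : ℂ_[p]) →
      IsUnit (Ψ.d (g₀ ^ p ^ c) - IsLocalRing.residue (nv ℂ_[p]) x • 1) := by
    intro c x hx
    obtain ⟨r, hr, hxr⟩ := hx.1
    have hxr' : x ^ r = 1 := Subtype.ext hxr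
    obtain ⟨N₁, hN₁⟩ := root_char (p := p) (IsLocalRing.residue (nv ℂ_[p]) x) hr
      (by rw [← map_pow, hxr', map_one]) c
    have h1 := hsm0 (x ^ N₁) (small_pow ip _ _ hx N₁)
    rw [map_pow] at h1
    have h2 := char_pow (p := p) (Ψ.d g₀) _ c h1
    rw [hN₁] at h2
    rw [map_pow]
    exact h2
  have hopen : ∀ g : Qbar ≃ₐ[K] Qbar, {h | ∀ i k, ‖(X h - X g) i k‖ < ‖nu‖} ∈ 𝓝 g := by
    intro g
    have h1 : IsOpen {h | ∀ i k, ‖(X h - X g) i k‖ < ‖nu‖} := by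
      have h2 : {h | ∀ i k, ‖(X h - X g) i k‖ < ‖nu‖} =
          ⋂ i, ⋂ k, {h | ‖(X h - X g) i k‖ < ‖nu‖} := by
        ext h
        simp only [Set.mem_ofPred_eq, Set.mem_iInter]
      rw [h2]
      apply isOpen_iInter_of_finite
      intro i
      apply isOpen_iInter_of_finite
      intro k
      apply isOpen_lt _ continuous_const
      apply Continuous.norm
      exact (continuous_apply_apply i k).comp (hXc.sub continuous_const)
    apply h1.mem_nhds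
    intro i k
    rw [sub_self, Matrix.zero_apply, norm_zero]
    exact norm_pos_iff.mpr hnu0
  obtain ⟨c, hdp⟩ : ∃ c : ℕ, Dp (IsLocalRing.residue (nv ℂ_[p])) nu' 0 (Zm (g₀ ^ p ^ c)) := by
    obtain ⟨V, hVo, hV1, hVs⟩ : ∃ V : Set (Qbar ≃ₐ[K] Qbar), IsOpen V ∧ 1 ∈ V ∧
        V ⊆ {h | ∀ i k, ‖(X h - X 1) i k‖ < ‖nu‖} := by
      obtain ⟨V, hV1, hV2, hV3⟩ := mem_nhds_iff.mp (hopen 1)
      exact ⟨V, hV2, hV3, hV1⟩
    obtain ⟨N', hN'⟩ := ProfiniteGrp.exist_openNormalSubgroup_sub_open_nhds_of_one hVo hV1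
    have hNo : IsOpen (N'.toSubgroup : Set (Qbar ≃ₐ[K] Qbar)) := N'.isOpen'
    have hfi : N'.toSubgroup.FiniteIndex :=
      haveI := N'.toSubgroup.quotient_finite_of_isOpen hNo
      Subgroup.finiteIndex_of_finite_quotient
    obtain ⟨r, hr, -, hrN⟩ := Subgroup.exists_pow_mem_of_index_ne_zero hfi.index_ne_zero g₀
    obtain ⟨c, n, hn, hrn⟩ := Nat.exists_eq_pow_mul_and_not_dvd hr.ne' p hp.out.ne_one
    refine ⟨c, ?_⟩
    obtain ⟨E', hE1, hE2⟩ := near_matrix nu' hnu'0 (X (g₀ ^ r) - 1) (by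
      intro i k
      have h1 := hVs (hN' hrN) i k
      rw [map_one] at h1
      exact h1)
    apply dp_power (IsLocalRing.residue (nv ℂ_[p]))
      (fun x hx => (IsLocalRing.residue_ne_zero_iff_isUnit x).mp hx) nu' _ (Ψ.b (g₀ ^ p ^ c))
      (Ψ.d (g₀ ^ p ^ c)) (hZr _) _ n _ E' hE2
    · apply hinj
      have h1 : ((Zm (g₀ ^ p ^ c)) ^ n).map (nv ℂ_[p]).subtype = X (g₀ ^ r) := by
        rw [hrn, pow_mul, map_pow, hXZ]
        exact map_pow (RingHom.mapMatrix (nv ℂ_[p]).subtype) _ _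
      rw [h1, map_add_matrix, map_one_matrix, ← hE1, add_sub_cancel]
    · rcases Nat.eq_zero_or_pos m with hm | hm
      · subst hm
        exact isUnit_of_subsingleton _
      · have h1 := hsmc c 1 (small_one ip (y + m) (by omega))
        rwa [map_one, one_smul] at h1
    · rw [Ne, CharP.cast_eq_zero_iff (IsLocalRing.ResidueField (nv ℂ_[p])) p]
      exact hn
  set g := g₀ ^ p ^ c with hg
  -- the deep element
  let N' : Matrix (Fin y ⊕ Fin m) (Fin y ⊕ Fin m) (nv ℂ_[p]) := fun i k => ⟨N i k, hN1 i k⟩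
  have hZw : Zm w = 1 + nu' • N' := by
    apply hinj
    rw [← hXZ, hXw, map_add_matrix, map_one_matrix]
    rfl
  set T := N'.toBlocks₁₁.map (IsLocalRing.residue (nv ℂ_[p])) with hTdef
  have hTe : T.charpoly.coeff e ≠ 0 := by
    rw [hTdef, Matrix.charpoly_map, Polynomial.coeff_map]
    apply um_res_ne
    rw [← hN3]
    have h1 : N.toBlocks₁₁ = N'.toBlocks₁₁.map (nv ℂ_[p]).subtype := rfl
    rw [h1, Matrix.charpoly_map, Polynomial.coeff_map]
    rfl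
  have hN21 : N'.toBlocks₂₁.map (IsLocalRing.residue (nv ℂ_[p])) = 0 := by
    ext i k
    exact residue_zero _ (hN2 i k)
  have hdw : Ψ.d w = 1 := by
    have h1 := hZr w
    rw [hZw, map_add_matrix, map_one_matrix, map_smul_matrix, hnu'r, zero_smul, add_zero,
      ← fromBlocks_one, fromBlocks_inj] at h1
    exact h1.2.2.2.symm
  have hx1 : Dp (IsLocalRing.residue (nv ℂ_[p])) nu' T (Zm (g * w)) := by
    have h1 : Zm (g * w) = Zm g * (1 + nu' • N') := by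
      apply hinj
      rw [← hXZ, map_mul, hXZ, hXZ, hZw, Matrix.map_mul]
    rw [h1]
    exact dp_mul _ nu' hnu'r _ hdp _ _ (hZr g) N' T rfl hN21
  have hx2 : Ψ.d (g * w) = Ψ.d g := by rw [map_mul, hdw, mul_one]
  -- an inverse Frobenius element
  obtain ⟨t, ⟨⟨-, -, -, htd⟩, ht⟩, q, hq⟩ :=
    fr_dense ip R il π hπ (g * w) _ (Filter.inter_mem (hloc (g * w)) (hopen (g * w)))
  have htd' : Ψ.d t = Ψ.d g := htd.trans hx2
  have htp : Dp (IsLocalRing.residue (nv ℂ_[p])) nu' T (Zm t) := by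
    obtain ⟨E', hE1, hE2⟩ := near_matrix nu' hnu'0 (X t - X (g * w)) ht
    have h1 : Zm t = Zm (g * w) + nu' • E' := by
      apply hinj
      rw [← hXZ, map_add_matrix, ← hXZ, ← hE1, add_sub_cancel]
    rw [h1]
    exact dp_near _ nu' hnu'r T _ hx1 E' hE2
  -- a power in `H`
  have hfi : H.FiniteIndex :=
    haveI := H.quotient_finite_of_isOpen hH
    Subgroup.finiteIndex_of_finite_quotient
  obtain ⟨n, hn, -, hnH⟩ := Subgroup.exists_pow_mem_of_index_ne_zero hfi.index_ne_zero t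
  have h1 : Module.finrank (PadicAlgCl ℓ) W₂ ≤ Module.finrank (PadicAlgCl ℓ) W₁ +
      (cyc ℓ (t ^ n) ^ j • π (t ^ n)).charpoly.rootMultiplicity 1 := by
    apply tv_sub
    intro x hx
    rw [one_smul]
    exact hT _ hnH x hx
  refine h1.trans (Nat.add_le_add_left ?_ _)
  rw [hq.mult, ← hXdef, map_pow, hXZ]
  apply dp_count nu' hnu'0 hnu1 hnu T (Zm t) htp e hTe n hn
  intro ω hω hroot
  rw [← hXZ, hXdef] at hroot
  have h2 : SmallRoot ip (y + m) (ω : ℂ_[p]) :=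
    hq.small _ hn (congrArg Subtype.val hω) (hq.root_p j _ hroot)
  rw [← hXdef, hXZ] at hroot
  exact small_root_one (Zm t) (Ψ.b t) (Ψ.d t) (hZr t) ω (by rw [htd']; exact hsmc c ω h2) hroot

end Pool.Agent.AC
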