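import Pool.Agent.Lib_helper88.AC.Det

/-!
# Powers of a deep element: interpolation
-/

set_option autoImplicit false

namespace Pool.Agent.AC

open Matrix Polynomial

section

variable {R : Type*} [CommRing R] {y m : ℕ}

/-- Matrices with lower left block divisible by `lam`. -/
def Her (lam : R) (M : Matrix (Fin y ⊕ Fin m) (Fin y ⊕ Fin m) R) : Prop :=
  ∃ (a : Matrix (Fin y) (Fin y) R) (b : Matrix (Fin y) (Fin m) R) (c : Matrix (Fin m) (Fin y) R)
    (d : Matrix (Fin m) (Fin m) R), M = fromBlocks a b (lam • c) d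

theorem her_zero (lam : R) : Her lam (0 : Matrix (Fin y ⊕ Fin m) (Fin y ⊕ Fin m) R) :=
  ⟨0, 0, 0, 0, by rw [smul_zero, fromBlocks_zero]⟩

theorem her_one (lam : R) : Her lam (1 : Matrix (Fin y ⊕ Fin m) (Fin y ⊕ Fin m) R) :=
  ⟨1, 0, 0, 1, by rw [smul_zero, fromBlocks_one]⟩

theorem Her.add {lam : R} {M N : Matrix (Fin y ⊕ Fin m) (Fin y ⊕ Fin m) R} (hM : Her lam M)
    (hN : Her lam N) : Her lam (M + N) := by
  obtain ⟨a, b, c, d, rfl⟩ := hM
  obtain ⟨a', b', c', d', rfl⟩ := hN
  exact ⟨a + a', b + b', c + c', d + d', by rw [fromBlocks_add, smul_add]⟩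

theorem Her.mul {lam : R} {M N : Matrix (Fin y ⊕ Fin m) (Fin y ⊕ Fin m) R} (hM : Her lam M)
    (hN : Her lam N) : Her lam (M * N) := by
  obtain ⟨a, b, c, d, rfl⟩ := hM
  obtain ⟨a', b', c', d', rfl⟩ := hN
  refine ⟨a * a' + lam • (b * c'), a * b' + b * d', c * a' + d * c', lam • (c * b') + d * d', ?_⟩
  rw [fromBlocks_multiply, smul_add, Matrix.mul_smul, Matrix.smul_mul, Matrix.smul_mul,
    Matrix.mul_smul]

theorem Her.smul {lam : R} {M : Matrix (Fin y ⊕ Fin m) (Fin y ⊕ Fin m) R} (hM : Her lam M)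
    (x : R) : Her lam (x • M) := by
  obtain ⟨a, b, c, d, rfl⟩ := hM
  exact ⟨x • a, x • b, x • c, x • d, by rw [fromBlocks_smul, smul_comm]⟩

theorem Her.pow {lam : R} {M : Matrix (Fin y ⊕ Fin m) (Fin y ⊕ Fin m) R} (hM : Her lam M)
    (n : ℕ) : Her lam (M ^ n) := by
  induction n with
  | zero => rw [pow_zero]; exact her_one lam
  | succ n ih => rw [pow_succ]; exact ih.mul hM

theorem her_sum {ι : Type*} (s : Finset ι) {lam : R}
    (f : ι → Matrix (Fin y ⊕ Fin m) (Fin y ⊕ Fin m) R) (h : ∀ i ∈ s, Her lam (f i)) :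
    Her lam (∑ i ∈ s, f i) :=
  Finset.sum_induction _ _ (fun _ _ => Her.add) (her_zero lam) h

/-- The product of `(1 + lam A, B; lam C, D)` and `1 + lam (a, b; lam c, d)`. -/
theorem mul_deep (lam : R) (A a : Matrix (Fin y) (Fin y) R) (B b : Matrix (Fin y) (Fin m) R)
    (Cc c : Matrix (Fin m) (Fin y) R) (D d : Matrix (Fin m) (Fin m) R) :
    fromBlocks (1 + lam • A) B (lam • Cc) D * (1 + lam • fromBlocks a b (lam • c) d) =
      fromBlocks (1 + lam • (A + a + lam • (A * a + B * c)))
        (B + lam • (b + lam • (A * b) + B * d)) (lam • (Cc + lam • (Cc * a + D * c)))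
        (D + lam • (lam • (Cc * b) + D * d)) := by
  rw [← fromBlocks_one, fromBlocks_smul, fromBlocks_add, fromBlocks_multiply]
  congr 1 <;>
  simp only [Matrix.mul_add, Matrix.add_mul, Matrix.mul_smul, Matrix.smul_mul, Matrix.mul_one,
    Matrix.one_mul, smul_add, smul_smul, zero_add, Matrix.mul_zero, add_zero] <;>
  abel

end

section

variable {O : Type*} [CommRing O]

/-- The polynomials `z (z - mu) ⋯ (z - (j - 1) mu)`. -/
noncomputable def fal (mu : O) (j : ℕ) : O[X] := ∏ i ∈ Finset.range j, (X - C ((i : O) * mu))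

theorem fal_eval (mu : O) (j n : ℕ) :
    (fal mu j).eval ((n : O) * mu) = mu ^ j * ((n.descFactorial j : ℕ) : O) := by
  induction j with
  | zero => simp [fal]
  | succ j ih =>
    have h1 : fal mu (j + 1) = fal mu j * (X - C ((j : O) * mu)) := by
      rw [fal, fal, Finset.prod_range_succ]
    rw [h1, eval_mul, ih, eval_sub, eval_X, eval_C, Nat.descFactorial_succ]
    rcases le_or_gt j n with h | h
    · rw [Nat.cast_mul, Nat.cast_sub h]
      ring
    · rw [Nat.descFactorial_of_lt h]
      simp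

/-- The interpolation of the powers of `1 + lam mu W`. -/
theorem pow_interp {y m p : ℕ} (hp : 1 < p) (lam mu : O) (inv : ℕ → O)
    (hinv : ∀ j, j < p → inv j * (j.factorial : O) = 1)
    (W : Matrix (Fin y ⊕ Fin m) (Fin y ⊕ Fin m) O) (hW : Her lam W) :
    ∃ M : Matrix (Fin y ⊕ Fin m) (Fin y ⊕ Fin m) O[X], Her (C lam) M ∧
      ∀ n, n < p → 1 + lam • (((n : O) * mu) • W +
        lam • M.map (evalRingHom ((n : O) * mu))) = (1 + (lam * mu) • W) ^ n := by
  classical
  refine ⟨∑ j ∈ (Finset.range p).filter (2 ≤ ·),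
    (C (inv j * lam ^ (j - 2)) * fal mu j) • (W.map C) ^ j, ?_, ?_⟩
  · refine her_sum _ _ fun j _ => Her.smul (Her.pow ?_ j) _
    obtain ⟨a, b, c, d, rfl⟩ := hW
    refine ⟨a.map C, b.map C, c.map C, d.map C, ?_⟩
    rw [fromBlocks_map]
    congr 1
    ext i j : 1
    simp
  · intro n hn
    have h1 : (∑ j ∈ (Finset.range p).filter (2 ≤ ·),
        (C (inv j * lam ^ (j - 2)) * fal mu j) • (W.map C) ^ j).map
          (evalRingHom ((n : O) * mu)) =
        ∑ j ∈ (Finset.range p).filter (2 ≤ ·),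
          (lam ^ (j - 2) * mu ^ j * (n.choose j : O)) • W ^ j := by
      have h2 : (∑ j ∈ (Finset.range p).filter (2 ≤ ·),
        (C (inv j * lam ^ (j - 2)) * fal mu j) • (W.map C) ^ j).map
          (evalRingHom ((n : O) * mu)) = (evalRingHom ((n : O) * mu)).mapMatrix
          (∑ j ∈ (Finset.range p).filter (2 ≤ ·),
            (C (inv j * lam ^ (j - 2)) * fal mu j) • (W.map C) ^ j) := rfl
      rw [h2, map_sum]
      refine Finset.sum_congr rfl fun j hj => ?_
      rw [Finset.mem_filter, Finset.mem_range] at hj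
      have h3 : (evalRingHom ((n : O) * mu)).mapMatrix
          ((C (inv j * lam ^ (j - 2)) * fal mu j) • (W.map C) ^ j) =
          ((evalRingHom ((n : O) * mu)) (C (inv j * lam ^ (j - 2)) * fal mu j)) •
            (evalRingHom ((n : O) * mu)).mapMatrix ((W.map C) ^ j) := by
        ext i i'
        simp [Matrix.smul_apply]
      rw [h3, map_pow]
      have h4 : (evalRingHom ((n : O) * mu)).mapMatrix (W.map C) = W := by
        ext i i'
        simp
      rw [h4]
      congr 1
      rw [map_mul, coe_evalRingHom, fal_eval, eval_C, Nat.descFactorial_eq_factorial_mul_choose,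
        Nat.cast_mul]
      have h5 := hinv j hj.1
      linear_combination (lam ^ (j - 2) * mu ^ j * (n.choose j : O)) * h5
    rw [h1, add_comm (1 : Matrix (Fin y ⊕ Fin m) (Fin y ⊕ Fin m) O) ((lam * mu) • W),
      (Commute.one_right _).add_pow]
    simp only [one_pow, mul_one]
    have h6 : ∀ j, ((lam * mu) • W) ^ j * ((n.choose j : ℕ) :
        Matrix (Fin y ⊕ Fin m) (Fin y ⊕ Fin m) O) =
        (lam ^ j * mu ^ j * (n.choose j : O)) • W ^ j := by
      intro j
      rw [_root_.smul_pow, mul_pow, ← nsmul_eq_mul', ← Nat.cast_smul_eq_nsmul O, smul_smul,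
        mul_comm (n.choose j : O)]
    rw [Finset.sum_congr rfl fun j _ => h6 j]
    have h7 : ∑ j ∈ Finset.range (n + 1), (lam ^ j * mu ^ j * (n.choose j : O)) • W ^ j =
        ∑ j ∈ Finset.range p, (lam ^ j * mu ^ j * (n.choose j : O)) • W ^ j := by
      apply Finset.sum_subset
      · intro j hj
        rw [Finset.mem_range] at hj ⊢
        omega
      · intro j _ hj
        rw [Finset.mem_range, not_lt] at hj
        rw [Nat.choose_eq_zero_of_lt (by omega), Nat.cast_zero, mul_zero, zero_smul]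
    rw [h7]
    obtain ⟨q, rfl⟩ : ∃ q, p = q + 2 := ⟨p - 2, by omega⟩
    have h8 : (Finset.range (q + 2)).filter (2 ≤ ·) = (Finset.range q).map
        ⟨fun i => i + 2, fun a b h => by simpa using h⟩ := by
      ext j
      simp only [Finset.mem_filter, Finset.mem_range, Finset.mem_map, Function.Embedding.coeFn_mk]
      constructor
      · rintro ⟨h9, h10⟩
        exact ⟨j - 2, by omega, by omega⟩
      · rintro ⟨i, h9, rfl⟩
        exact ⟨by omega, by omega⟩
    rw [h8, Finset.sum_map, Finset.sum_range_succ', Finset.sum_range_succ']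
    simp only [Function.Embedding.coeFn_mk, Nat.add_sub_cancel]
    rw [zero_add, pow_one, pow_zero, pow_zero, Nat.choose_zero_right, Nat.choose_one_right,
      Nat.cast_one, mul_one, mul_one, one_smul, pow_one, pow_one, pow_zero, smul_add, smul_smul,
      Finset.smul_sum, Finset.smul_sum]
    have h11 : ∀ i ∈ Finset.range q, lam • lam • (lam ^ i * mu ^ (i + 2) *
        (n.choose (i + 2) : O)) • W ^ (i + 2) =
        (lam ^ (i + 1 + 1) * mu ^ (i + 1 + 1) * (n.choose (i + 1 + 1) : O)) • W ^ (i + 1 + 1) := by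
      intro i _
      rw [smul_smul, smul_smul]
      congr 1
      ring
    rw [Finset.sum_congr rfl h11]
    have h12 : lam * ((n : O) * mu) = lam * mu * (n : O) := by ring
    rw [h12]
    abel

end

end Pool.Agent.AC
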