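import Pool.Agent.Lib_helper88.AC.Comp

/-!
# Roots of unity of small degree
-/

set_option autoImplicit false

namespace Pool.Agent.AC

open Matrix NumberField Topology Polynomial
open Pool.Agent.TT Pool.Agent.TB Pool.Agent.TF Pool.Agent.RF Pool.Agent.TU Pool.Agent.UB

/-- The powers of a root of unity of small degree. -/
theorem small_pow {E k : Type} [Field E] [Field k] (i : E →+* k) (n : ℕ) (x : k)
    (h : SmallRoot i n x) (N : ℕ) : SmallRoot i n (x ^ N) := by
  obtain ⟨⟨r, hr, hx⟩, f, hf0, hfn, hroot⟩ := h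
  refine ⟨⟨r, hr, by rw [← pow_mul, mul_comm, pow_mul, hx, one_pow]⟩, ?_⟩
  let _ : Algebra E k := i.toAlgebra
  have hint : IsIntegral E x := by
    refine ⟨X ^ r - C 1, monic_X_pow_sub_C _ hr.ne', ?_⟩
    rw [eval₂_sub, eval₂_X_pow, eval₂_C, map_one, hx, sub_self]
  let L : IntermediateField E k := IntermediateField.adjoin E {x}
  have hfin : FiniteDimensional E L := IntermediateField.adjoin.finiteDimensional hint
  let z : L := ⟨x ^ N, pow_mem (IntermediateField.mem_adjoin_simple_self E x) N⟩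
  have h1 : (minpoly E z).natDegree ≤ Module.finrank E L := minpoly.natDegree_le z
  have h2 : Module.finrank E L = (minpoly E x).natDegree :=
    IntermediateField.adjoin.finrank hint
  have h3 : (minpoly E x).natDegree ≤ f.natDegree := by
    apply Polynomial.natDegree_le_of_dvd _ hf0
    apply minpoly.dvd
    rw [Polynomial.aeval_def, ← Polynomial.eval_map]
    exact hroot
  have hintz : IsIntegral E z := Algebra.IsIntegral.isIntegral z
  refine ⟨minpoly E z, minpoly.ne_zero hintz, by omega, ?_⟩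
  have h4 : Polynomial.aeval z (minpoly E z) = 0 := minpoly.aeval E z
  have h5 := congrArg (algebraMap L k) h4
  rw [map_zero, ← Polynomial.aeval_algebraMap_apply] at h5
  rw [IsRoot.def, Polynomial.eval_map]
  exact h5

/-- The number one is a root of unity of degree one. -/
theorem small_one {E k : Type} [Field E] [Field k] (i : E →+* k) (n : ℕ) (hn : 0 < n) :
    SmallRoot i n 1 := by
  refine ⟨⟨1, one_pos, one_pow 1⟩, X - C 1, X_sub_C_ne_zero 1, ?_, ?_⟩
  · rw [natDegree_X_sub_C]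
    exact hn
  · rw [IsRoot.def, Polynomial.map_sub, Polynomial.map_X, Polynomial.map_C, map_one, eval_sub,
      eval_X, eval_C, sub_self]

/-- Powers of matrices in characteristic `p`. -/
theorem char_pow {k : Type} [Field k] {p : ℕ} [Fact p.Prime] [CharP k p] {m : ℕ}
    (D : Matrix (Fin m) (Fin m) k) (z : k) (c : ℕ) (hD : IsUnit (D - z • 1)) :
    IsUnit (D ^ p ^ c - z ^ p ^ c • 1) := by
  rcases Nat.eq_zero_or_pos m with hm | hm
  · subst hm
    exact isUnit_of_subsingleton _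
  · have : Nonempty (Fin m) := ⟨⟨0, hm⟩⟩
    have h1 : (D - z • 1) ^ p ^ c = D ^ p ^ c - (z • 1) ^ p ^ c :=
      sub_pow_char_pow_of_commute _ _ ((Commute.one_right D).smul_right z)
    rw [_root_.smul_pow, one_pow] at h1
    rw [← h1]
    exact hD.pow _

/-- In characteristic `p` every root of unity has a root of order `p ^ c` among its powers. -/
theorem root_char {k : Type} [Field k] {p : ℕ} [hp : Fact p.Prime] [CharP k p] (z : k) {r : ℕ}
    (hr : 0 < r) (hz : z ^ r = 1) (c : ℕ) : ∃ N : ℕ, (z ^ N) ^ p ^ c = z := by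
  obtain ⟨b, n, hn, hrn⟩ := Nat.exists_eq_pow_mul_and_not_dvd hr.ne' p hp.out.ne_one
  have h1 : z ^ n = 1 := by
    have h2 : (z ^ n - 1) ^ p ^ b = 0 := by
      rw [sub_pow_char_pow, ← pow_mul, mul_comm, ← hrn, hz, one_pow, sub_self]
    exact sub_eq_zero.mp ((pow_eq_zero_iff (pow_ne_zero _ hp.out.ne_zero)).mp h2)
  have hn0 : n ≠ 0 := by
    rintro rfl
    exact hn (dvd_zero p)
  rcases Nat.eq_or_lt_of_le (Nat.one_le_iff_ne_zero.mpr hn0) with h2 | h2
  · refine ⟨0, ?_⟩
    rw [← h2, pow_one] at h1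
    rw [h1, one_pow, one_pow]
  · have hco : Nat.Coprime (p ^ c) n := Nat.Coprime.pow_left c
      ((Nat.Prime.coprime_iff_not_dvd hp.out).mpr hn)
    obtain ⟨N, -, hN⟩ := Nat.exists_mul_mod_eq_one_of_coprime hco h2
    refine ⟨N, ?_⟩
    have h3 : N * p ^ c = n * (N * p ^ c / n) + 1 := by
      have h4 := Nat.div_add_mod (N * p ^ c) n
      rw [mul_comm N (p ^ c)] at h4 ⊢
      rw [hN] at h4
      exact h4.symm
    rw [← pow_mul, h3, pow_succ, pow_mul, h1, one_pow, one_mul]

/-- The eigenvalue `z` of a residually unipotent extension. -/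
theorem resid_root' {k : Type} [Field k] {y m : ℕ}
    (b : Matrix (Fin y) (Fin m) k) (d : Matrix (Fin m) (Fin m) k) (x : k)
    (hd : IsUnit (d - x • 1)) (hx : (fromBlocks 1 b 0 d).charpoly.IsRoot x) : x = 1 := by
  by_contra hne
  rw [Matrix.charpoly_fromBlocks_zero₂₁, Matrix.charpoly_one, IsRoot.def, eval_mul, eval_pow,
    eval_sub, eval_X, eval_one] at hx
  have h1 : d.charpoly.IsRoot x :=
    (mul_eq_zero.mp hx).resolve_left (pow_ne_zero _ (sub_ne_zero.mpr hne))
  rw [← Matrix.charpoly_toLin', ← Module.End.hasEigenvalue_iff_isRoot_charpoly] at h1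
  obtain ⟨v, hv⟩ := h1.exists_hasEigenvector
  have h3 : Matrix.toLin' d v = x • v := hv.apply_eq_smul
  rw [Matrix.toLin'_apply] at h3
  have h4 : (d - x • 1).mulVec v = 0 := by
    rw [Matrix.sub_mulVec, h3, Matrix.smul_mulVec, Matrix.one_mulVec, sub_self]
  have h5 : (d - x • 1)⁻¹ * (d - x • 1) = 1 :=
    Matrix.nonsing_inv_mul _ ((Matrix.isUnit_iff_isUnit_det _).mp hd)
  have h6 : v = 0 := by
    have h7 := congrArg (fun u => (d - x • 1)⁻¹.mulVec u) h4
    simp only [Matrix.mulVec_mulVec, h5, Matrix.one_mulVec, Matrix.mulVec_zero] at h7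
    exact h7
  exact hv.2 h6

/-- The reduction of the condition on the element `g₀`. -/
theorem small_unit {E : Type} [Field E] {p : ℕ} [hp : Fact p.Prime] (ip : E →+* ℂ_[p]) {n m : ℕ}
    (D : Matrix (Fin m) (Fin m) (nv ℂ_[p]))
    (h : ∀ x : ℂ_[p], SmallRoot ip n x → ‖(D.map (nv ℂ_[p]).subtype - x • 1).det‖ = 1)
    (x : nv ℂ_[p]) (hx : SmallRoot ip n (x : ℂ_[p])) :
    IsUnit (D.map (IsLocalRing.residue (nv ℂ_[p])) - IsLocalRing.residue (nv ℂ_[p]) x • 1) := by
  rw [Matrix.isUnit_iff_isUnit_det, isUnit_iff_ne_zero]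
  have h1 : (D.map (IsLocalRing.residue (nv ℂ_[p])) - IsLocalRing.residue (nv ℂ_[p]) x • 1).det =
      IsLocalRing.residue (nv ℂ_[p]) (D - x • 1).det := by
    rw [RingHom.map_det, RingHom.mapMatrix_apply, Matrix.map_sub _ (map_sub _), map_smul_matrix,
      map_one_matrix]
  rw [h1]
  apply um_res_ne
  rw [← h _ hx]
  congr 1
  have h2 : D.map (nv ℂ_[p]).subtype - (x : ℂ_[p]) • 1 = (D - x • 1).map (nv ℂ_[p]).subtype := by
    rw [Matrix.map_sub _ (map_sub _), map_smul_matrix, map_one_matrix]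
    rfl
  rw [h2, ← RingHom.mapMatrix_apply, ← RingHom.map_det]
  rfl

/-- The eigenvalues of a residually unipotent extension. -/
theorem small_root_one {p : ℕ} [hp : Fact p.Prime] {y m : ℕ}
    (Z : Matrix (Fin y ⊕ Fin m) (Fin y ⊕ Fin m) (nv ℂ_[p]))
    (b : Matrix (Fin y) (Fin m) (IsLocalRing.ResidueField (nv ℂ_[p])))
    (d : Matrix (Fin m) (Fin m) (IsLocalRing.ResidueField (nv ℂ_[p])))
    (hZ : Z.map (IsLocalRing.residue (nv ℂ_[p])) = fromBlocks 1 b 0 d) (ω : nv ℂ_[p])
    (hd : IsUnit (d - IsLocalRing.residue (nv ℂ_[p]) ω • 1))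
    (hroot : (Z.map (nv ℂ_[p]).subtype).charpoly.IsRoot (ω : ℂ_[p])) :
    IsLocalRing.residue (nv ℂ_[p]) ω = 1 := by
  apply resid_root' b d _ hd
  rw [← hZ, Matrix.charpoly_map]
  rw [Matrix.charpoly_map] at hroot
  have h2 : (Z.charpoly.map (nv ℂ_[p]).subtype).eval ((nv ℂ_[p]).subtype ω) = 0 := hroot
  rw [Polynomial.eval_map_apply] at h2
  have h3 : Z.charpoly.eval ω = 0 := Subtype.ext h2
  show (Z.charpoly.map (IsLocalRing.residue (nv ℂ_[p]))).eval
    (IsLocalRing.residue (nv ℂ_[p]) ω) = 0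
  rw [Polynomial.eval_map_apply, h3, map_zero]

/-- A root of unity is integral. -/
theorem unity_nv {p : ℕ} [hp : Fact p.Prime] (x : ℂ_[p]) {r : ℕ} (hr : 0 < r) (hx : x ^ r = 1) :
    ∃ ω : nv ℂ_[p], (ω : ℂ_[p]) = x := by
  refine ⟨⟨x, ?_⟩, rfl⟩
  have h1 : ‖x‖ ≤ 1 := by
    by_contra hgt
    rw [not_le] at hgt
    have h3 := one_lt_pow₀ hgt hr.ne'
    rw [← norm_pow, hx, norm_one] at h3
    exact lt_irrefl _ h3
  exact h1

end Pool.Agent.AC
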