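import Pool.Agent.Lib_helper88.AC.Poly

/-!
# A coefficient that vanishes for the powers of a deep element
-/

set_option autoImplicit false

namespace Pool.Agent.AC

open Matrix Polynomial

/-- A polynomial with the roots `n mu`, `n < p`. -/
theorem van_dvd {O : Type*} [CommRing O] [IsDomain O] [CharZero O] {p : ℕ} (mu : O) (hmu : mu ≠ 0)
    (Q : O[X]) (hQ : ∀ n, n < p → Q.eval ((n : O) * mu) = 0) : fal mu p ∣ Q := by
  classical
  rcases eq_or_ne Q 0 with rfl | hQ0
  · exact dvd_zero _
  have hinj : Function.Injective (fun n : ℕ => (n : O) * mu) := by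
    intro a b hab
    have h1 := mul_right_cancel₀ hmu hab
    exact_mod_cast h1
  have h1 : ((Finset.range p).val.map (fun n : ℕ => (n : O) * mu)) ≤ Q.roots := by
    rw [Multiset.le_iff_subset ((Finset.range p).nodup.map hinj)]
    intro x hx
    obtain ⟨n, hn, rfl⟩ := Multiset.mem_map.mp hx
    rw [mem_roots hQ0]
    exact hQ n (Finset.mem_range.mp hn)
  have h2 := (Multiset.prod_X_sub_C_dvd_iff_le_roots hQ0 _).mpr h1
  rw [Multiset.map_map] at h2
  exact h2

theorem map_smul_matrix {R S : Type*} [CommRing R] [CommRing S] (f : R →+* S) {i j : Type*}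
    (x : R) (M : Matrix i j R) : (x • M).map f = f x • M.map f := by
  ext i j
  simp

theorem map_add_matrix {R S : Type*} [CommRing R] [CommRing S] (f : R →+* S) {i j : Type*}
    (M N : Matrix i j R) : (M + N).map f = M.map f + N.map f := by
  ext i j
  simp

theorem map_one_matrix {R S : Type*} [CommRing R] [CommRing S] (f : R →+* S) {i : Type*}
    [DecidableEq i] : (1 : Matrix i i R).map f = 1 :=
  Matrix.map_one _ (map_zero _) (map_one _)

theorem ac_poly {O k : Type*} [CommRing O] [IsDomain O] [CharZero O] [Field k] {p : ℕ}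
    (hp : 1 < p) (ρ : O →+* k) (inv : ℕ → O)
    (hinv : ∀ j, j < p → inv j * (j.factorial : O) = 1) {y m : ℕ} (hy : y < p) (lam mu : O)
    (hlam : lam ≠ 0) (hlam1 : ρ lam = 0) (hmu : mu ≠ 0) (hmu1 : ρ mu = 0)
    (A : Matrix (Fin y) (Fin y) O) (B : Matrix (Fin y) (Fin m) O) (Cc : Matrix (Fin m) (Fin y) O)
    (D : Matrix (Fin m) (Fin m) O) (hD : IsUnit (D.map ρ - 1)) (α : Matrix (Fin y) (Fin y) O)
    (β : Matrix (Fin y) (Fin m) O) (γ : Matrix (Fin m) (Fin y) O) (δ : Matrix (Fin m) (Fin m) O)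
    (e : ℕ)
    (h : ∀ n, n < p → (fromBlocks (1 + lam • A) B (lam • Cc) D *
      (1 + (lam * mu) • fromBlocks α β (lam • γ) δ) ^ n - 1).charpoly.coeff e = 0) (z : k) :
    (A.map ρ - B.map ρ * (D.map ρ - 1)⁻¹ * Cc.map ρ + z • α.map ρ).charpoly.coeff e = 0 := by
  classical
  obtain ⟨M, ⟨a, b, c, d, hM⟩, hM2⟩ := pow_interp hp lam mu inv hinv (fromBlocks α β (lam • γ) δ)
    ⟨α, β, γ, δ, rfl⟩
  set L : O[X] := C lam with hL
  set a' : Matrix (Fin y) (Fin y) O[X] := (X : O[X]) • α.map C + L • a with ha'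
  set b' : Matrix (Fin y) (Fin m) O[X] := (X : O[X]) • β.map C + L • b with hb'
  set c' : Matrix (Fin m) (Fin y) O[X] := (X : O[X]) • γ.map C + L • c with hc'
  set d' : Matrix (Fin m) (Fin m) O[X] := (X : O[X]) • δ.map C + L • d with hd'
  set A1 : Matrix (Fin y) (Fin y) O[X] :=
    A.map C + a' + L • (A.map C * a' + B.map C * c') with hA1
  set B1 : Matrix (Fin y) (Fin m) O[X] :=
    B.map C + L • (b' + L • (A.map C * b') + B.map C * d') with hB1
  set C1 : Matrix (Fin m) (Fin y) O[X] :=
    Cc.map C + L • (Cc.map C * a' + D.map C * c') with hC1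
  set D1 : Matrix (Fin m) (Fin m) O[X] :=
    D.map C + L • (L • (Cc.map C * b') + D.map C * d') with hD1
  have hW : fromBlocks a' b' (L • c') d' = (X : O[X]) • (fromBlocks α β (lam • γ) δ).map C +
      L • M := by
    rw [hM, fromBlocks_map, fromBlocks_smul, fromBlocks_smul, fromBlocks_add, ha', hb', hc', hd',
      map_smul_matrix, smul_add, smul_comm L (X : O[X])]
  -- the values
  have hval : ∀ n, n < p → ((qm L A1 B1 C1 D1).coeff e).eval ((n : O) * mu) = 0 := by
    intro n hn
    set ev := evalRingHom ((n : O) * mu) with hev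
    have h1 : ((qm L A1 B1 C1 D1).coeff e).eval ((n : O) * mu) =
        ((qm L A1 B1 C1 D1).map ev).coeff e := by
      rw [coeff_map]
      rfl
    have hevL : ev L = lam := by
      rw [hev, hL, coe_evalRingHom, eval_C]
    rw [h1, qm_map, hevL]
    apply qm_coeff lam hlam
    have h2 : fromBlocks (1 + lam • A1.map ev) (B1.map ev) (lam • C1.map ev) (D1.map ev) =
        (fromBlocks (1 + L • A1) B1 (L • C1) D1).map ev := by
      rw [fromBlocks_map, map_add_matrix ev 1, map_one_matrix, map_smul_matrix ev L A1,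
        map_smul_matrix ev L C1, hevL]
    have h3 : ∀ {i j : ℕ} (N : Matrix (Fin i) (Fin j) O), (N.map C).map ev = N := by
      intro i j N
      ext i' j'
      rw [Matrix.map_apply, Matrix.map_apply, hev, coe_evalRingHom, eval_C]
    have h3' : ((fromBlocks α β (lam • γ) δ).map C).map ev = fromBlocks α β (lam • γ) δ := by
      ext i' j'
      rw [Matrix.map_apply, Matrix.map_apply, hev, coe_evalRingHom, eval_C]
    have h4 := mul_deep L (A.map C) a' (B.map C) b' (Cc.map C) c' (D.map C) d'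
    rw [h2, hA1, hB1, hC1, hD1, ← h4, Matrix.map_mul, map_add_matrix, map_one_matrix,
      map_smul_matrix, hevL, hW, map_add_matrix, map_smul_matrix, map_smul_matrix, hevL, h3',
      fromBlocks_map, map_add_matrix, map_one_matrix, map_smul_matrix, map_smul_matrix, hevL, h3,
      h3, h3, h3]
    have h5 : ev (X : O[X]) = (n : O) * mu := by
      rw [hev, coe_evalRingHom, eval_X]
    rw [h5, hM2 n hn]
    exact h n hn
  -- the reduction
  obtain ⟨u, hu, hred⟩ := qm_zero ((A.map ρ).map C + (X : k[X]) • (α.map ρ).map C)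
    ((B.map ρ).map C) ((Cc.map ρ).map C) ((D.map ρ).map C) (by
      have h1 : (D.map ρ).map (C : k →+* k[X]) - 1 = (C : k →+* k[X]).mapMatrix (D.map ρ - 1) := by
        rw [map_sub, map_one]
        rfl
      rw [h1]
      exact hD.map _)
  have hmap : ((qm L A1 B1 C1 D1).coeff e).map ρ =
      u * ((A.map ρ - B.map ρ * (D.map ρ - 1)⁻¹ * Cc.map ρ).map C +
        (X : k[X]) • (α.map ρ).map C).charpoly.coeff e := by
    have h1 : ((qm L A1 B1 C1 D1).coeff e).map ρ =
        ((qm L A1 B1 C1 D1).map (mapRingHom ρ)).coeff e := by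
      rw [coeff_map]
      rfl
    have hL0 : mapRingHom ρ L = 0 := by
      rw [hL, coe_mapRingHom, map_C, hlam1, C_0]
    have hX : mapRingHom ρ (X : O[X]) = X := by
      rw [coe_mapRingHom, map_X]
    have h3 : ∀ {i j : ℕ} (N : Matrix (Fin i) (Fin j) O),
        (N.map C).map (mapRingHom ρ) = (N.map ρ).map C := by
      intro i j N
      ext i' j'
      rw [Matrix.map_apply, Matrix.map_apply, Matrix.map_apply, Matrix.map_apply, coe_mapRingHom,
        map_C]
    rw [h1, qm_map, hL0]
    have h4 : A1.map (mapRingHom ρ) = (A.map ρ).map C + (X : k[X]) • (α.map ρ).map C := by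
      rw [hA1, ha']
      simp only [map_add_matrix, map_smul_matrix, hL0, zero_smul, add_zero, hX, h3]
    have h5 : B1.map (mapRingHom ρ) = (B.map ρ).map C := by
      rw [hB1]
      simp only [map_add_matrix, map_smul_matrix, hL0, zero_smul, add_zero, h3]
    have h6 : C1.map (mapRingHom ρ) = (Cc.map ρ).map C := by
      rw [hC1]
      simp only [map_add_matrix, map_smul_matrix, hL0, zero_smul, add_zero, h3]
    have h7 : D1.map (mapRingHom ρ) = (D.map ρ).map C := by
      rw [hD1]
      simp only [map_add_matrix, map_smul_matrix, hL0, zero_smul, add_zero, h3]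
    rw [h4, h5, h6, h7, hred, coeff_C_mul]
    have h8 : ((D.map ρ).map (C : k →+* k[X]) - 1)⁻¹ = ((D.map ρ - 1)⁻¹).map C := by
      apply Matrix.inv_eq_right_inv
      have h9 : (D.map ρ).map (C : k →+* k[X]) - 1 = (D.map ρ - 1).map C := by
        rw [Matrix.map_sub _ (map_sub _), map_one_matrix]
      rw [h9, ← Matrix.map_mul, Matrix.mul_nonsing_inv _
        ((Matrix.isUnit_iff_isUnit_det _).mp hD), map_one_matrix]
    rw [h8, ← Matrix.map_mul, ← Matrix.map_mul, add_sub_right_comm,
      ← Matrix.map_sub _ (map_sub (C : k →+* k[X]))]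
  have hdvd : (X : k[X]) ^ p ∣ ((qm L A1 B1 C1 D1).coeff e).map ρ := by
    obtain ⟨T, hT⟩ := van_dvd (p := p) mu hmu _ hval
    rw [hT, Polynomial.map_mul]
    refine dvd_mul_of_dvd_left (dvd_of_eq ?_) _
    rw [fal, Polynomial.map_prod]
    have h1 : ∀ i ∈ Finset.range p, (X - C ((i : O) * mu)).map ρ = (X : k[X]) := by
      intro i _
      rw [Polynomial.map_sub, map_X, map_C, map_mul, hmu1, mul_zero, C_0, sub_zero]
    rw [Finset.prod_congr rfl h1, Finset.prod_const, Finset.card_range]
  have hzero : ((A.map ρ - B.map ρ * (D.map ρ - 1)⁻¹ * Cc.map ρ).map C +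
        (X : k[X]) • (α.map ρ).map C).charpoly.coeff e = 0 := by
    rw [hmap, hu.dvd_mul_left] at hdvd
    by_contra hne
    have h1 := Polynomial.natDegree_le_of_dvd hdvd hne
    rw [natDegree_X_pow] at h1
    have h2 := charpoly_degLe (A.map ρ - B.map ρ * (D.map ρ - 1)⁻¹ * Cc.map ρ) (α.map ρ) e
    omega
  have h1 : (A.map ρ - B.map ρ * (D.map ρ - 1)⁻¹ * Cc.map ρ + z • α.map ρ) =
      ((A.map ρ - B.map ρ * (D.map ρ - 1)⁻¹ * Cc.map ρ).map C +
        (X : k[X]) • (α.map ρ).map C).map (evalRingHom z) := by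
    generalize A.map ρ - B.map ρ * (D.map ρ - 1)⁻¹ * Cc.map ρ = N
    ext i j
    simp
    exact mul_comm _ _
  rw [h1, Matrix.charpoly_map, coeff_map, hzero, map_zero]

end Pool.Agent.AC
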